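import Mathlib

/-!
# Wronskian determinants of polynomials of degree less than the characteristic
-/

set_option autoImplicit false

namespace Pool.Agent.H64.RP

open Polynomial Finset

variable {F : Type*} [Field F]

/-- the Wronskian determinant -/
noncomputable def Wr {n : ℕ} (v : Fin n → F[X]) : F[X] :=
  (Matrix.of fun i j : Fin n => derivative^[(j : ℕ)] (v i)).det

/-- expansion of the determinant -/
lemma Wr_expand {n : ℕ} (v : Fin n → F[X]) :
    Wr v = ∑ σ : Equiv.Perm (Fin n), Equiv.Perm.sign σ •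
      ∏ i, derivative^[(σ i : ℕ)] (v i) := by
  unfold Wr
  rw [← Matrix.det_transpose, Matrix.det_apply]
  rfl

lemma Wr_change {n : ℕ} (v v' : Fin n → F[X])
    (h : ∀ i, v' i ∈ Submodule.span F (Set.range v)) : ∃ c : F, Wr v' = C c * Wr v := by
  choose M hM using fun i => (Submodule.mem_span_range_iff_exists_fun F).1 (h i)
  refine ⟨(Matrix.of M).det, ?_⟩
  have h1 : (Matrix.of fun i j : Fin n => derivative^[(j : ℕ)] (v' i)) =
      (C : F →+* F[X]).mapMatrix (Matrix.of M) *
        (Matrix.of fun i j : Fin n => derivative^[(j : ℕ)] (v i)) := by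
    ext1 i j
    rw [Matrix.mul_apply, Matrix.of_apply, ← hM i, iterate_derivative_sum]
    refine Finset.sum_congr rfl fun k _ => ?_
    rw [iterate_derivative_smul, RingHom.mapMatrix_apply, Matrix.map_apply, Matrix.of_apply,
      Matrix.of_apply, smul_eq_C_mul]
  unfold Wr
  rw [h1, Matrix.det_mul, RingHom.map_det]

/-- the sum of `card T` different numbers smaller than `n` -/
lemma sum_top (T : Finset ℕ) : ∀ n : ℕ, (∀ k ∈ T, k < n) →
    2 * ∑ k ∈ T, k + T.card * (T.card + 1) ≤ 2 * n * T.card := by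
  induction T using Finset.induction_on_max with
  | empty => intro n _; simp
  | insert a s ha ih =>
    intro n hn
    have has : a ∉ s := fun h => lt_irrefl _ (ha a h)
    rw [sum_insert has, card_insert_of_notMem has]
    have h1 := ih a (fun k hk => ha k hk)
    have h2 : a < n := hn a (mem_insert_self _ _)
    have h3 : 2 * (a + 1) * (s.card + 1) ≤ 2 * n * (s.card + 1) :=
      Nat.mul_le_mul_right _ (by omega)
    nlinarith

/-- the sum of `card T` different numbers -/
lemma sum_bot (T : Finset ℕ) : T.card * (T.card - 1) ≤ 2 * ∑ k ∈ T, k := by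
  induction T using Finset.induction_on_max with
  | empty => simp
  | insert a s ha ih =>
    have has : a ∉ s := fun h => lt_irrefl _ (ha a h)
    rw [sum_insert has, card_insert_of_notMem has]
    have h1 : s.card ≤ a := by
      have h2 := card_le_card (show s ⊆ range a from fun k hk => mem_range.2 (ha k hk))
      rwa [card_range] at h2
    rw [Nat.add_sub_cancel]
    rcases Nat.eq_zero_or_pos s.card with h | h
    · rw [h]; simp
    · obtain ⟨c, hc⟩ : ∃ c, s.card = c + 1 := ⟨s.card - 1, by omega⟩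
      rw [hc] at ih h1 ⊢
      rw [Nat.add_sub_cancel] at ih
      nlinarith

lemma sum_top_fin {ι : Type*} (H : Finset ι) (f : ι → ℕ) (n : ℕ)
    (hf : Set.InjOn f H) (hn : ∀ i ∈ H, f i < n) :
    2 * ∑ i ∈ H, f i + H.card * (H.card + 1) ≤ 2 * n * H.card := by
  classical
  have h1 := sum_top (H.image f) n (by
    intro k hk
    rw [mem_image] at hk
    obtain ⟨i, hi, rfl⟩ := hk
    exact hn i hi)
  rw [card_image_of_injOn hf, sum_image (fun x hx y hy h => hf hx hy h)] at h1
  exact h1

/-- divisibility of the Wronskian -/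
lemma Wr_dvd {n : ℕ} (v : Fin n → F[X]) (q : F[X]) (H : Finset (Fin n)) (o : Fin n → ℕ)
    (ho : ∀ i ∈ H, q ^ (o i) ∣ v i) (e : ℕ)
    (he : 2 * e + 2 * n * H.card ≤ 2 * ∑ i ∈ H, o i + H.card * (H.card + 1)) :
    q ^ e ∣ Wr v := by
  rw [Wr_expand]
  refine Finset.dvd_sum fun σ _ => ?_
  have h1 : q ^ e ∣ ∏ i, derivative^[(σ i : ℕ)] (v i) := by
    have h2 : ∏ i ∈ H, q ^ (o i - (σ i : ℕ)) ∣ ∏ i, derivative^[(σ i : ℕ)] (v i) := by
      refine (Finset.prod_dvd_prod_of_dvd _ _ fun i hi => ?_).trans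
        (Finset.prod_dvd_prod_of_subset _ _ _ (subset_univ H))
      exact pow_sub_dvd_iterate_derivative_of_pow_dvd _ (ho i hi)
    refine dvd_trans ?_ h2
    rw [prod_pow_eq_pow_sum]
    refine pow_dvd_pow _ ?_
    have h3 := sum_top_fin H (fun i => (σ i : ℕ)) n
      (fun a _ b _ h => σ.injective (Fin.ext h)) (fun i _ => (σ i).2)
    have h4 : ∑ i ∈ H, o i ≤ ∑ i ∈ H, (o i - (σ i : ℕ)) + ∑ i ∈ H, (σ i : ℕ) := by
      rw [← sum_add_distrib]
      exact sum_le_sum fun i _ => by omega
    omega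
  rcases Int.units_eq_one_or (Equiv.Perm.sign σ) with h | h
  · rw [h, one_smul]; exact h1
  · rw [h, Units.neg_smul, one_smul]; exact (dvd_neg.2 h1)

lemma sum_perm {n : ℕ} (σ : Equiv.Perm (Fin n)) : 2 * ∑ i, (σ i : ℕ) = n * (n - 1) := by
  rw [Equiv.sum_comp σ (fun i : Fin n => (i : ℕ)), Fin.sum_univ_eq_sum_range (fun i => i) n,
    mul_comm, Finset.sum_range_id_mul_two]

/-- the degree of the Wronskian -/
lemma Wr_natDegree {n : ℕ} (v : Fin n → F[X]) (d : Fin n → ℕ) (hd : ∀ i, (v i).natDegree ≤ d i)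
    (h0 : Wr v ≠ 0) : 2 * (Wr v).natDegree + n * (n - 1) ≤ 2 * ∑ i, d i := by
  have h1 : (Wr v).coeff (Wr v).natDegree ≠ 0 := by
    rw [coeff_natDegree]
    exact leadingCoeff_ne_zero.2 h0
  set m := (Wr v).natDegree with hm
  rw [Wr_expand, finsetSum_coeff] at h1
  obtain ⟨σ, _, hσ⟩ := Finset.exists_ne_zero_of_sum_ne_zero h1
  have h2 : (∏ i, derivative^[(σ i : ℕ)] (v i)).coeff m ≠ 0 := by
    intro h
    apply hσ
    rcases Int.units_eq_one_or (Equiv.Perm.sign σ) with h' | h'
    · rw [h', one_smul, h]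
    · rw [h', Units.neg_smul, one_smul, coeff_neg, h, neg_zero]
  have h3 : (∏ i, derivative^[(σ i : ℕ)] (v i)) ≠ 0 := by
    intro h
    rw [h, coeff_zero] at h2
    exact h2 rfl
  have h4 : ∀ i, derivative^[(σ i : ℕ)] (v i) ≠ 0 := fun i => Finset.prod_ne_zero_iff.1 h3 i (mem_univ i)
  have h5 : ∀ i, (derivative^[(σ i : ℕ)] (v i)).natDegree + (σ i : ℕ) ≤ d i := by
    intro i
    have h6 : (σ i : ℕ) ≤ (v i).natDegree := by
      by_contra h
      push Not at h
      exact h4 i (iterate_derivative_eq_zero h)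
    have h7 := natDegree_iterate_derivative (v i) (σ i : ℕ)
    have := hd i
    omega
  have h6 : m ≤ ∑ i, (derivative^[(σ i : ℕ)] (v i)).natDegree :=
    (le_natDegree_of_ne_zero h2).trans (natDegree_prod_le _ _)
  have h7 : ∑ i, ((derivative^[(σ i : ℕ)] (v i)).natDegree + (σ i : ℕ)) ≤ ∑ i, d i :=
    sum_le_sum fun i _ => h5 i
  rw [sum_add_distrib] at h7
  have h8 := sum_perm σ
  omega

lemma coeff_prod_le {ι : Type*} (s : Finset ι) (f : ι → F[X]) (d : ι → ℕ)
    (h : ∀ i ∈ s, (f i).natDegree ≤ d i) :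
    (∏ i ∈ s, f i).coeff (∑ i ∈ s, d i) = ∏ i ∈ s, (f i).coeff (d i) ∧
      (∏ i ∈ s, f i).natDegree ≤ ∑ i ∈ s, d i := by
  classical
  induction s using Finset.induction_on with
  | empty => simp
  | insert a s ha ih =>
    obtain ⟨h1, h2⟩ := ih fun i hi => h i (mem_insert_of_mem hi)
    have h3 := h a (mem_insert_self _ _)
    rw [prod_insert ha, sum_insert ha, prod_insert ha]
    refine ⟨?_, natDegree_mul_le.trans (by omega)⟩
    rw [coeff_mul_add_eq_of_natDegree_le h3 h2, h1]

/-- nonvanishing of the Wronskian of polynomials of different degrees -/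
theorem Wr_ne_zero {n : ℕ} (p : ℕ) [Fact p.Prime] [CharP F p] (v : Fin n → F[X]) (hv : ∀ i, v i ≠ 0)
    (hinj : Function.Injective fun i => (v i).natDegree) (hp : ∀ i, (v i).natDegree < p) :
    Wr v ≠ 0 := by
  intro h0
  -- the sum of the degrees is large
  set d : Fin n → ℕ := fun i => (v i).natDegree with hd
  have hsum : n * (n - 1) ≤ 2 * ∑ i, d i := by
    have h1 := sum_bot (univ.image d)
    rwa [card_image_of_injective _ hinj, card_univ, Fintype.card_fin,
      sum_image (fun a _ b _ h => hinj h)] at h1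
  obtain ⟨E, hE⟩ : ∃ E, ∑ i, d i = E + n * (n - 1) / 2 := ⟨∑ i, d i - n * (n - 1) / 2, by omega⟩
  have heven : 2 * (n * (n - 1) / 2) = n * (n - 1) := by
    have h2 := Finset.sum_range_id_mul_two n
    omega
  have h1 : (Wr v).coeff E = (Matrix.of fun i j : Fin n =>
      (v i).leadingCoeff * (((d i).descFactorial (j : ℕ) : ℕ) : F)).det := by
    rw [Wr_expand, finsetSum_coeff, ← Matrix.det_transpose, Matrix.det_apply]
    refine Finset.sum_congr rfl fun σ _ => ?_
    have h2 : (∏ i, derivative^[(σ i : ℕ)] (v i)).coeff E =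
        ∏ i, (v i).leadingCoeff * (((d i).descFactorial (σ i : ℕ) : ℕ) : F) := by
      by_cases hσ : ∀ i, (σ i : ℕ) ≤ d i
      · have h3 : E = ∑ i, (d i - (σ i : ℕ)) := by
          have h4 : ∑ i, d i = ∑ i, (d i - (σ i : ℕ)) + ∑ i, (σ i : ℕ) := by
            rw [← sum_add_distrib]
            exact sum_congr rfl fun i _ => by have := hσ i; omega
          have h5 := sum_perm σ
          omega
        have h4 := (coeff_prod_le univ (fun i => derivative^[(σ i : ℕ)] (v i))
          (fun i => d i - (σ i : ℕ)) (fun i _ => natDegree_iterate_derivative _ _)).1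
        rw [h3, h4]
        refine Finset.prod_congr rfl fun i _ => ?_
        rw [coeff_iterate_derivative, Nat.sub_add_cancel (hσ i), nsmul_eq_mul, mul_comm]
        rfl
      · push Not at hσ
        obtain ⟨i, hi⟩ := hσ
        rw [prod_eq_zero (mem_univ i) (iterate_derivative_eq_zero hi), coeff_zero,
          prod_eq_zero (mem_univ i)]
        rw [Nat.descFactorial_eq_zero_iff_lt.2 hi, Nat.cast_zero, mul_zero]
    have h5 : ∀ P : F[X], (Equiv.Perm.sign σ • P).coeff E = Equiv.Perm.sign σ • P.coeff E := by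
      intro P
      rcases Int.units_eq_one_or (Equiv.Perm.sign σ) with h | h
      · rw [h, one_smul, one_smul]
      · rw [h, Units.neg_smul, one_smul, Units.neg_smul, one_smul, coeff_neg]
    rw [h5, h2]
    rfl
  rw [h0, coeff_zero] at h1
  -- the determinant is not zero
  have h2 : (Matrix.of fun i j : Fin n =>
      (v i).leadingCoeff * (((d i).descFactorial (j : ℕ) : ℕ) : F)).det =
      (∏ i, (v i).leadingCoeff) * (Matrix.vandermonde fun i => ((d i : ℕ) : F)).det := by
    have h3 := Matrix.det_mul_column (fun i => (v i).leadingCoeff)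
      (Matrix.of fun i j : Fin n => (((d i).descFactorial (j : ℕ) : ℕ) : F))
    refine h3.trans ?_
    congr 1
    rw [Matrix.det_eval_matrixOfPolynomials_eq_det_vandermonde (fun i => ((d i : ℕ) : F))
      (fun j : Fin n => descPochhammer F (j : ℕ)) (fun j => descPochhammer_natDegree F _)
      (fun j => monic_descPochhammer F _)]
    congr 1
    ext i j
    rw [Matrix.of_apply, Matrix.of_apply, descPochhammer_eval_eq_descFactorial]
  rw [h2] at h1
  rcases mul_eq_zero.1 h1.symm with h3 | h3
  · rw [prod_eq_zero_iff] at h3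
    obtain ⟨i, _, hi⟩ := h3
    exact hv i (leadingCoeff_eq_zero.1 hi)
  · rw [Matrix.det_vandermonde_eq_zero_iff] at h3
    obtain ⟨i, j, hij, hne⟩ := h3
    apply hne
    apply hinj
    exact ((CharP.natCast_eq_natCast F p).1 hij).eq_of_lt_of_lt (hp i) (hp j)

end Pool.Agent.H64.RP
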