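import Mathlib
import Pool.Agent.H64.RP.Wr

/-!
# The count of ramification at three points for a space of polynomials
-/

set_option autoImplicit false

namespace Pool.Agent.H64.RP

open Polynomial Finset Module

variable {F : Type*} [Field F]

/-- a basis of a space of polynomials with decreasing degrees -/
lemma exists_flag : ∀ (D : ℕ) (L : Submodule F F[X]), (∀ g ∈ L, ∀ k, D ≤ k → g.coeff k = 0) →
    ∃ (m : ℕ) (l : Fin m → F[X]), LinearIndependent F l ∧ Submodule.span F (Set.range l) = L ∧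
      StrictAnti (fun i => (l i).natDegree) ∧ ∀ i, (l i).natDegree < D := by
  intro D
  induction D with
  | zero =>
    intro L hL
    refine ⟨0, Fin.elim0, linearIndependent_empty_type, ?_, fun i => i.elim0, fun i => i.elim0⟩
    rw [Set.range_eq_empty, Submodule.span_empty, eq_comm, eq_bot_iff]
    intro g hg
    rw [Submodule.mem_bot]
    ext k
    rw [hL g hg k (Nat.zero_le k), coeff_zero]
  | succ D ih =>
    intro L hL
    by_cases hc : ∀ g ∈ L, g.coeff D = 0
    · obtain ⟨m, l, h1, h2, h3, h4⟩ := ih L (fun g hg k hk => by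
        rcases Nat.eq_or_lt_of_le hk with h | h
        · rw [← h]; exact hc g hg
        · exact hL g hg k h)
      exact ⟨m, l, h1, h2, h3, fun i => (h4 i).trans (Nat.lt_succ_self D)⟩
    · push Not at hc
      obtain ⟨g, hg, hgD⟩ := hc
      obtain ⟨m, l, h1, h2, h3, h4⟩ := ih (L ⊓ LinearMap.ker (lcoeff F D)) (fun f hf k hk => by
        rw [Submodule.mem_inf, LinearMap.mem_ker, lcoeff_apply] at hf
        rcases Nat.eq_or_lt_of_le hk with h | h
        · rw [← h]; exact hf.2
        · exact hL f hf.1 k h)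
      have hgd : g.natDegree = D := by
        refine le_antisymm ?_ (le_natDegree_of_ne_zero hgD)
        rw [natDegree_le_iff_coeff_eq_zero]
        intro k hk
        exact hL g hg k hk
      refine ⟨m + 1, Fin.cons g l, ?_, ?_, ?_, ?_⟩
      · rw [linearIndependent_finCons]
        refine ⟨h1, ?_⟩
        rw [h2, Submodule.mem_inf, LinearMap.mem_ker, lcoeff_apply]
        exact fun h => hgD h.2
      · rw [Fin.range_cons, Submodule.span_insert, h2]
        apply le_antisymm
        · refine sup_le ?_ inf_le_left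
          rw [Submodule.span_singleton_le_iff_mem]
          exact hg
        · intro f hf
          rw [Submodule.mem_sup]
          refine ⟨(f.coeff D / g.coeff D) • g, Submodule.smul_mem _ _ (Submodule.mem_span_singleton_self g),
            f - (f.coeff D / g.coeff D) • g, ?_, by ring⟩
          rw [Submodule.mem_inf, LinearMap.mem_ker, lcoeff_apply]
          refine ⟨L.sub_mem hf (L.smul_mem _ hg), ?_⟩
          rw [coeff_sub, coeff_smul, smul_eq_mul, div_mul_cancel₀ _ hgD, sub_self]
      · intro i j hij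
        refine Fin.cases (fun hij => ?_) (fun i hij => ?_) i hij
        · obtain ⟨j', rfl⟩ := Fin.exists_succ_eq.2 (Fin.pos_iff_ne_zero.1 hij)
          simp only [Fin.cons_zero, Fin.cons_succ]
          rw [hgd]
          exact h4 j'
        · obtain ⟨j', rfl⟩ :=
            Fin.exists_succ_eq.2 (Fin.pos_iff_ne_zero.1 (lt_of_le_of_lt (Fin.zero_le _) hij))
          simp only [Fin.cons_succ]
          exact h3 (Fin.succ_lt_succ_iff.1 hij)
      · intro i
        refine Fin.cases ?_ (fun i => ?_) i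
        · rw [Fin.cons_zero, hgd]; exact Nat.lt_succ_self D
        · rw [Fin.cons_succ]; exact (h4 i).trans (Nat.lt_succ_self D)

lemma fin_dim (W : Submodule F F[X]) (D : ℕ) (hW : ∀ g ∈ W, g.natDegree ≤ D) :
    FiniteDimensional F W := by
  have h1 : FiniteDimensional F (degreeLT F (D + 1)) :=
    Module.Finite.equiv (degreeLTEquiv F (D + 1)).symm
  refine Submodule.finiteDimensional_of_le (S₂ := degreeLT F (D + 1)) ?_
  intro g hg
  rw [mem_degreeLT]
  have := hW g hg
  exact (degree_le_natDegree).trans_lt (by exact_mod_cast Nat.lt_succ_of_le this)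

/-- extension of an independent family -/
lemma exists_ext (W : Submodule F F[X]) (D : ℕ) (hW : ∀ g ∈ W, g.natDegree ≤ D) (h m : ℕ)
    (hfin : finrank F W = h + m) (v : Fin h → F[X]) (hv : LinearIndependent F v)
    (hvW : ∀ i, v i ∈ W) :
    ∃ l : Fin m → F[X], (∀ i, l i ∈ W) ∧ W ≤ Submodule.span F (Set.range (Fin.append v l)) ∧
      2 * ∑ k, (l k).natDegree + m * (m + 1) ≤ 2 * (D + 1) * m := by
  have hWf := fin_dim W D hW
  set S := Submodule.span F (Set.range v) with hS
  have hSW : S ≤ W := by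
    rw [hS, Submodule.span_le]
    rintro _ ⟨i, rfl⟩
    exact hvW i
  obtain ⟨T0, hT0⟩ := Submodule.exists_isCompl S
  set T := T0 ⊓ W with hT
  have hsup : S ⊔ T = W := by
    rw [hT, ← sup_inf_assoc_of_le _ hSW, hT0.sup_eq_top, top_inf_eq]
  have hinf : S ⊓ T = ⊥ := by
    rw [eq_bot_iff]
    calc S ⊓ T ≤ S ⊓ T0 := inf_le_inf_left _ inf_le_left
      _ = ⊥ := hT0.inf_eq_bot
      _ ≤ ⊥ := le_rfl
  have hSf : FiniteDimensional F S := Submodule.finiteDimensional_of_le hSW
  have hTf : FiniteDimensional F T := Submodule.finiteDimensional_of_le (inf_le_right : T ≤ W)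
  have h1 := Submodule.finrank_sup_add_finrank_inf_eq S T
  rw [hsup, hinf, finrank_bot, hfin, hS, finrank_span_eq_card hv, Fintype.card_fin] at h1
  obtain ⟨m', l, g1, g2, g3, g4⟩ := exists_flag (D + 1) T (fun g hg k hk => by
    have := hW g (inf_le_right (a := T0) hg)
    exact coeff_eq_zero_of_natDegree_lt (by omega))
  have h2 := finrank_span_eq_card g1
  rw [g2, Fintype.card_fin] at h2
  obtain rfl : m' = m := by omega
  refine ⟨l, fun i => ?_, ?_, ?_⟩
  · have : l i ∈ T := by
      rw [← g2]; exact Submodule.subset_span ⟨i, rfl⟩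
    exact inf_le_right (a := T0) this
  · rw [← hsup]
    refine sup_le ?_ ?_
    · rw [hS]
      apply Submodule.span_mono
      rintro _ ⟨i, rfl⟩
      exact ⟨Fin.castAdd m' i, Fin.append_left _ _ _⟩
    · rw [← g2]
      apply Submodule.span_mono
      rintro _ ⟨i, rfl⟩
      exact ⟨Fin.natAdd h i, Fin.append_right _ _ _⟩
  · have h3 := sum_top_fin (univ : Finset (Fin m')) (fun k => (l k).natDegree) (D + 1)
      (g3.injective.injOn) (fun i _ => g4 i)
    rwa [card_univ, Fintype.card_fin] at h3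

lemma append_dvd {h m : ℕ} (v : Fin h → F[X]) (l : Fin m → F[X]) (q : F[X]) (o : Fin h → ℕ)
    (ho : ∀ i, q ^ (o i) ∣ v i) :
    ∃ e : ℕ, q ^ e ∣ Wr (Fin.append v l) ∧ 2 * ∑ i, o i + h * (h + 1) ≤ 2 * e + 2 * (h + m) * h := by
  classical
  by_cases hc : 2 * (h + m) * h ≤ 2 * ∑ i, o i + h * (h + 1)
  · obtain ⟨a, ha⟩ : ∃ a, h * (h + 1) = 2 * a := by
      obtain ⟨a, ha⟩ := Nat.even_mul_succ_self h
      exact ⟨a, by omega⟩
    refine ⟨∑ i, o i + a - (h + m) * h, ?_, ?_⟩
    · refine Wr_dvd (Fin.append v l) q (univ.image (Fin.castAdd m)) (Fin.append o (fun _ => 0)) ?_ _ ?_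
      · intro i hi
        rw [mem_image] at hi
        obtain ⟨j, _, rfl⟩ := hi
        rw [Fin.append_left, Fin.append_left]
        exact ho j
      · rw [card_image_of_injective _ (Fin.castAdd_injective h m), card_univ, Fintype.card_fin,
          sum_image (fun a _ b _ hab => Fin.castAdd_injective h m hab)]
        simp only [Fin.append_left]
        rw [ha] at hc ⊢
        have : 2 * (h + m) * h = 2 * ((h + m) * h) := by ring
        omega
    · rw [ha] at hc ⊢
      have : 2 * (h + m) * h = 2 * ((h + m) * h) := by ring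
      omega
  · exact ⟨0, by simp, by omega⟩

/-- The count of ramification at the points `0`, `-1` and `∞`. -/
theorem plucker (p : ℕ) [Fact p.Prime] [CharP F p] (D : ℕ) (hD : D < p) (W : Submodule F F[X])
    (hW : ∀ g ∈ W, g.natDegree ≤ D) (h m : ℕ) (hfin : finrank F W = h + m)
    (v0 v1 v2 : Fin h → F[X]) (li0 : LinearIndependent F v0) (li1 : LinearIndependent F v1)
    (li2 : LinearIndependent F v2) (m0 : ∀ i, v0 i ∈ W) (m1 : ∀ i, v1 i ∈ W) (m2 : ∀ i, v2 i ∈ W)
    (o0 o1 d2 : Fin h → ℕ) (h0 : ∀ i, X ^ (o0 i) ∣ v0 i) (h1 : ∀ i, (X + 1) ^ (o1 i) ∣ v1 i)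
    (h2 : ∀ i, (v2 i).natDegree ≤ d2 i) :
    2 * (∑ i, o0 i + ∑ i, o1 i) + 2 * m ^ 2 + h ≤
      2 * ∑ i, d2 i + 2 * m * D + h ^ 2 + 2 * h * m + 2 * m := by
  obtain ⟨n, b, b1, b2, b3, b4⟩ := exists_flag (D + 1) W (fun g hg k hk => by
    have := hW g hg
    exact coeff_eq_zero_of_natDegree_lt (by omega))
  have hn := finrank_span_eq_card b1
  rw [b2, Fintype.card_fin, hfin] at hn
  subst hn
  have hb : Wr b ≠ 0 := Wr_ne_zero p b (fun i => b1.ne_zero i) b3.injective
    (fun i => lt_of_lt_of_le (b4 i) (by omega))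
  have hbW : ∀ i, b i ∈ W := fun i => by
    rw [← b2]; exact Submodule.subset_span ⟨i, rfl⟩
  obtain ⟨l0, _, a0, _⟩ := exists_ext W D hW h m hfin v0 li0 m0
  obtain ⟨l1, _, a1, _⟩ := exists_ext W D hW h m hfin v1 li1 m1
  obtain ⟨l2, _, a2, s2⟩ := exists_ext W D hW h m hfin v2 li2 m2
  obtain ⟨c0, hc0⟩ := Wr_change (Fin.append v0 l0) b (fun i => a0 (hbW i))
  obtain ⟨c1, hc1⟩ := Wr_change (Fin.append v1 l1) b (fun i => a1 (hbW i))
  obtain ⟨c2, hc2⟩ := Wr_change (Fin.append v2 l2) b (fun i => a2 (hbW i))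
  obtain ⟨e0, f0, g0⟩ := append_dvd v0 l0 X o0 h0
  obtain ⟨e1, f1, g1⟩ := append_dvd v1 l1 (X + 1) o1 h1
  have k0 : X ^ e0 ∣ Wr b := by rw [hc0]; exact f0.mul_left _
  have k1 : (X + 1) ^ e1 ∣ Wr b := by rw [hc1]; exact f1.mul_left _
  have hcop : IsCoprime ((X : F[X]) ^ e0) ((X + 1) ^ e1) := by
    refine IsCoprime.pow ?_
    exact ⟨-1, 1, by ring⟩
  have k2 := hcop.mul_dvd k0 k1
  have k3 := natDegree_le_of_dvd k2 hb
  have hX1 : (X + 1 : F[X]) ≠ 0 := X_add_C_ne_zero 1
  have hX1d : ((X + 1 : F[X]) ^ e1).natDegree = e1 := by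
    have e : (X + 1 : F[X]) = X + C 1 := by simp
    rw [natDegree_pow, e, natDegree_X_add_C, mul_one]
  rw [natDegree_mul (pow_ne_zero _ X_ne_zero) (pow_ne_zero _ hX1), natDegree_X_pow, hX1d] at k3
  have hu2 : Wr (Fin.append v2 l2) ≠ 0 := by
    intro h
    rw [h, mul_zero] at hc2
    exact hb hc2
  have k4 := Wr_natDegree (Fin.append v2 l2) (Fin.append d2 (fun k => (l2 k).natDegree)) (by
    intro i
    refine Fin.addCases (fun i => ?_) (fun i => ?_) i
    · rw [Fin.append_left, Fin.append_left]; exact h2 i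
    · rw [Fin.append_right, Fin.append_right]) hu2
  rw [Fin.sum_univ_add] at k4
  simp only [Fin.append_left, Fin.append_right] at k4
  have k5 : (Wr b).natDegree ≤ (Wr (Fin.append v2 l2)).natDegree := by
    rw [hc2]; exact natDegree_C_mul_le _ _
  have k6 : (h + m) * (h + m - 1) + (h + m) = (h + m) * (h + m) := by
    rcases Nat.eq_zero_or_pos (h + m) with h' | h'
    · rw [h']
    · obtain ⟨c, hc⟩ : ∃ c, h + m = c + 1 := ⟨h + m - 1, by omega⟩
      rw [hc, Nat.add_sub_cancel]; ring
  nlinarith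

end Pool.Agent.H64.RP
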