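import Mathlib
import Pool.Agent.H64.RP.Pl

/-!
# The count of ramification at three points, for families indexed by finite sets
-/

set_option autoImplicit false

namespace Pool.Agent.H64.RP

open Polynomial Finset Module

variable {F : Type*} [Field F]

theorem plucker_finset (p : ℕ) [Fact p.Prime] [CharP F p] {ι : Type*} (D : ℕ) (hD : D < p)
    (W : Submodule F F[X]) (hW : ∀ g ∈ W, g.natDegree ≤ D) (h m : ℕ) (hfin : finrank F W = h + m)
    (f0 f1 f2 : ι → F[X]) (S0 S1 S2 : Finset ι) (c0 : S0.card = h) (c1 : S1.card = h)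
    (c2 : S2.card = h)
    (li0 : ∀ g : ι → F, ∑ x ∈ S0, g x • f0 x = 0 → ∀ x ∈ S0, g x = 0)
    (li1 : ∀ g : ι → F, ∑ x ∈ S1, g x • f1 x = 0 → ∀ x ∈ S1, g x = 0)
    (li2 : ∀ g : ι → F, ∑ x ∈ S2, g x • f2 x = 0 → ∀ x ∈ S2, g x = 0)
    (m0 : ∀ x ∈ S0, f0 x ∈ W) (m1 : ∀ x ∈ S1, f1 x ∈ W) (m2 : ∀ x ∈ S2, f2 x ∈ W)
    (o0 o1 d2 : ι → ℕ) (h0 : ∀ x ∈ S0, X ^ (o0 x) ∣ f0 x) (h1 : ∀ x ∈ S1, (X + 1) ^ (o1 x) ∣ f1 x)
    (h2 : ∀ x ∈ S2, (f2 x).natDegree ≤ d2 x) :
    2 * (∑ x ∈ S0, o0 x + ∑ x ∈ S1, o1 x) + 2 * m ^ 2 + h ≤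
      2 * ∑ x ∈ S2, d2 x + 2 * m * D + h ^ 2 + 2 * h * m + 2 * m := by
  have key : ∀ S : Finset ι, S.card = h → ∃ e : Fin h → ι, Function.Injective e ∧ (∀ j, e j ∈ S) ∧
      (∀ o : ι → ℕ, ∑ x ∈ S, o x = ∑ j, o (e j)) ∧
      ∀ f : ι → F[X], (∀ g : ι → F, ∑ x ∈ S, g x • f x = 0 → ∀ x ∈ S, g x = 0) →
        LinearIndependent F (fun j => f (e j)) := by
    intro S hS
    let en : Fin h ≃ S := (S.equivFinOfCardEq hS).symm
    have hinj : Function.Injective (fun j => ((en j : S) : ι)) :=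
      fun a b hab => en.injective (Subtype.ext hab)
    refine ⟨fun j => ((en j : S) : ι), hinj, fun j => (en j).2, fun o => ?_, fun f hf => ?_⟩
    · rw [← Finset.sum_coe_sort]
      exact (Equiv.sum_comp en (fun x : S => o x)).symm
    · have h3 : LinearIndepOn F f (S : Set ι) := linearIndepOn_finset_iff.2 hf
      exact LinearIndependent.comp h3 en en.injective
  obtain ⟨e0, _, i0, s0, l0⟩ := key S0 c0
  obtain ⟨e1, _, i1, s1, l1⟩ := key S1 c1
  obtain ⟨e2, _, i2, s2, l2⟩ := key S2 c2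
  rw [s0, s1, s2]
  exact plucker p D hD W hW h m hfin _ _ _ (l0 f0 li0) (l1 f1 li1) (l2 f2 li2)
    (fun j => m0 _ (i0 j)) (fun j => m1 _ (i1 j)) (fun j => m2 _ (i2 j))
    (fun j => o0 (e0 j)) (fun j => o1 (e1 j)) (fun j => d2 (e2 j))
    (fun j => h0 _ (i0 j)) (fun j => h1 _ (i1 j)) (fun j => h2 _ (i2 j))

/-- rank and nullity for a family indexed by a finite set -/
theorem rank_nullity {ι : Type*} (S : Finset ι) (f : ι → F[X]) (k : ℕ) (e : Fin k → ι → F)
    (he : ∀ j, ∑ x ∈ S, e j x • f x = 0)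
    (hind : ∀ c : Fin k → F, (∀ x ∈ S, ∑ j, c j * e j x = 0) → ∀ j, c j = 0) :
    k + finrank F (Submodule.span F (Set.range fun x : S => f x)) ≤ S.card := by
  set T : (S → F) →ₗ[F] F[X] := Fintype.linearCombination F (fun x : S => f x) with hT
  have h1 := LinearMap.finrank_range_add_finrank_ker T
  rw [hT, Fintype.range_linearCombination, ← hT, Module.finrank_fintype_fun_eq_card,
    Fintype.card_coe] at h1
  have h2 : ∀ j, (fun x : S => e j x) ∈ LinearMap.ker T := by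
    intro j
    rw [LinearMap.mem_ker, hT, Fintype.linearCombination_apply]
    exact (Finset.sum_coe_sort S (fun x => e j x • f x)).trans (he j)
  have h3 : LinearIndependent F (fun j => (⟨fun x : S => e j x, h2 j⟩ : LinearMap.ker T)) := by
    rw [Fintype.linearIndependent_iff]
    intro c hc
    refine hind c fun x hx => ?_
    have h4 := congrArg (fun y : LinearMap.ker T => (y : S → F) ⟨x, hx⟩) hc
    simpa using h4
  have h4 := h3.fintype_card_le_finrank
  rw [Fintype.card_fin] at h4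
  omega

theorem rank_nullity_three {ι : Type*} (S : Finset ι) (f : ι → F[X]) (e1 e2 e3 : ι → F)
    (h1 : ∑ x ∈ S, e1 x • f x = 0) (h2 : ∑ x ∈ S, e2 x • f x = 0) (h3 : ∑ x ∈ S, e3 x • f x = 0)
    (hind : ∀ a b c : F, (∀ x ∈ S, a * e1 x + b * e2 x + c * e3 x = 0) → a = 0 ∧ b = 0 ∧ c = 0) :
    3 + finrank F (Submodule.span F (Set.range fun x : S => f x)) ≤ S.card := by
  refine rank_nullity S f 3 ![e1, e2, e3] (fun j => ?_) (fun c hc => ?_)
  · fin_cases j
    · exact h1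
    · exact h2
    · exact h3
  · obtain ⟨k0, k1, k2⟩ := hind (c 0) (c 1) (c 2) (fun x hx => by
      have := hc x hx
      rw [Fin.sum_univ_three] at this
      exact this)
    intro j
    fin_cases j
    · exact k0
    · exact k1
    · exact k2

end Pool.Agent.H64.RP
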