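import Mathlib
import Pool.Graph.R_seed8.Y374.RP.Star

/-!
# The translates of the addition theorem of `coth` by points of order two
-/

set_option autoImplicit false

namespace Pool.Agent.H64.RP

open Finset Pool.Agent.TH350.AddF

section Rat

open PowerSeries

/-- `(x / 2) tanh (x / 2)` -/
noncomputable def GG : PowerSeries ℚ := rescale 2 YY - YY

lemma GG_mul (a : ℚ) (ha : a ≠ 0) :
    (rescale a EE + 1) * rescale a GG = C (a / 2) * X * (rescale a EE - 1) := by
  have h1 := YY_mul a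
  have h2 := YY_mul (a + a)
  rw [← EE_add a a] at h2
  have n1 := EE_ne a ha
  have h3 : rescale a GG = rescale (a + a) YY - rescale a YY := by
    unfold GG
    rw [map_sub]
    congr 1
    ext n
    rw [coeff_rescale, coeff_rescale, coeff_rescale, ← mul_assoc, ← mul_pow, ← two_mul, mul_comm 2 a]
  rw [h3]
  have c1 : (C ((a + a) / 2) : PowerSeries ℚ) = C (a / 2) + C (a / 2) := by
    rw [← map_add]; congr 1; ring
  rw [c1] at h2
  apply mul_left_cancel₀ n1
  set u := rescale a EE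
  linear_combination h2 - (u + 1) * h1

lemma EE_ne' (a : ℚ) : rescale a EE + 1 ≠ 0 := by
  intro h
  have := congrArg (coeff 0) h
  rw [map_add, coeff_rescale, coeff_one] at this
  unfold EE at this
  rw [coeff_exp] at this
  norm_num at this

theorem addition3 (a b : ℚ) (ha : a ≠ 0) (hb : b ≠ 0) (hab : a + b ≠ 0) :
    rescale (a + b) YY * (C b * rescale a GG + C a * rescale b GG)
      = C (a + b) * (rescale a GG * rescale b GG + C (a * b / 4) * X ^ 2) := by
  have h1 := GG_mul a ha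
  have h2 := GG_mul b hb
  have h3 := YY_mul (a + b)
  rw [← EE_add a b] at h3
  have n1 := EE_ne' a
  have n2 := EE_ne' b
  have n3 := EE_ne (a + b) hab
  rw [← EE_add a b] at n3
  set u := rescale a EE
  set v := rescale b EE
  set Ya := rescale a GG
  set Yb := rescale b GG
  set Yc := rescale (a + b) YY
  apply mul_left_cancel₀ (mul_ne_zero (mul_ne_zero n1 n2) n3)
  have c1 : (C (a / 2) : PowerSeries ℚ) = C (1 / 2 : ℚ) * C a := by
    rw [← map_mul]; congr 1; ring
  have c2 : (C (b / 2) : PowerSeries ℚ) = C (1 / 2 : ℚ) * C b := by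
    rw [← map_mul]; congr 1; ring
  have c3 : (C ((a + b) / 2) : PowerSeries ℚ) = C (1 / 2 : ℚ) * (C a + C b) := by
    rw [← map_add, ← map_mul]; congr 1; ring
  have c4 : (C (a * b / 4) : PowerSeries ℚ) = C (1 / 2 : ℚ) * C (1 / 2 : ℚ) * (C a * C b) := by
    rw [← map_mul, ← map_mul, ← map_mul]; congr 1; ring
  have c5 : (C (a + b) : PowerSeries ℚ) = C a + C b := map_add _ _ _
  rw [c1] at h1
  rw [c2] at h2
  rw [c3] at h3
  rw [c4, c5]
  have L : (u + 1) * (v + 1) * (u * v - 1) * (Yc * (C b * Ya + C a * Yb)) =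
      ((u * v - 1) * Yc) * (C b * ((u + 1) * Ya) * (v + 1) + C a * ((v + 1) * Yb) * (u + 1)) := by ring
  have R : (u + 1) * (v + 1) * (u * v - 1) * ((C a + C b) * (Ya * Yb +
      C (1 / 2 : ℚ) * C (1 / 2 : ℚ) * (C a * C b) * X ^ 2)) =
      (C a + C b) * (u * v - 1) * (((u + 1) * Ya) * ((v + 1) * Yb) + (u + 1) * (v + 1) *
        (C (1 / 2 : ℚ) * C (1 / 2 : ℚ) * (C a * C b) * X ^ 2)) := by ring
  rw [L, R, h1, h2, h3]
  ring

theorem addition2 (a b : ℚ) (ha : a ≠ 0) (hb : b ≠ 0) (hab : a + b ≠ 0) :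
    rescale (a + b) GG * (C b * rescale a YY + C a * rescale b GG)
      = C (a + b) * (rescale a YY * rescale b GG + C (a * b / 4) * X ^ 2) := by
  have h1 := YY_mul a
  have h2 := GG_mul b hb
  have h3 := GG_mul (a + b) hab
  rw [← EE_add a b] at h3
  have n1 := EE_ne a ha
  have n2 := EE_ne' b
  have n3 := EE_ne' (a + b)
  rw [← EE_add a b] at n3
  set u := rescale a EE
  set v := rescale b EE
  set Ya := rescale a YY
  set Yb := rescale b GG
  set Yc := rescale (a + b) GG
  apply mul_left_cancel₀ (mul_ne_zero (mul_ne_zero n1 n2) n3)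
  have c1 : (C (a / 2) : PowerSeries ℚ) = C (1 / 2 : ℚ) * C a := by
    rw [← map_mul]; congr 1; ring
  have c2 : (C (b / 2) : PowerSeries ℚ) = C (1 / 2 : ℚ) * C b := by
    rw [← map_mul]; congr 1; ring
  have c3 : (C ((a + b) / 2) : PowerSeries ℚ) = C (1 / 2 : ℚ) * (C a + C b) := by
    rw [← map_add, ← map_mul]; congr 1; ring
  have c4 : (C (a * b / 4) : PowerSeries ℚ) = C (1 / 2 : ℚ) * C (1 / 2 : ℚ) * (C a * C b) := by
    rw [← map_mul, ← map_mul, ← map_mul]; congr 1; ring
  have c5 : (C (a + b) : PowerSeries ℚ) = C a + C b := map_add _ _ _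
  rw [c1] at h1
  rw [c2] at h2
  rw [c3] at h3
  rw [c4, c5]
  have L : (u - 1) * (v + 1) * (u * v + 1) * (Yc * (C b * Ya + C a * Yb)) =
      ((u * v + 1) * Yc) * (C b * ((u - 1) * Ya) * (v + 1) + C a * ((v + 1) * Yb) * (u - 1)) := by ring
  have R : (u - 1) * (v + 1) * (u * v + 1) * ((C a + C b) * (Ya * Yb +
      C (1 / 2 : ℚ) * C (1 / 2 : ℚ) * (C a * C b) * X ^ 2)) =
      (C a + C b) * (u * v + 1) * (((u - 1) * Ya) * ((v + 1) * Yb) + (u - 1) * (v + 1) *
        (C (1 / 2 : ℚ) * C (1 / 2 : ℚ) * (C a * C b) * X ^ 2)) := by ring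
  rw [L, R, h1, h2, h3]
  ring

lemma coeff_GG (n : ℕ) : coeff n GG = (2 ^ n - 1) * yy n := by
  unfold GG yy
  rw [map_sub, coeff_rescale]
  ring

lemma coeff_YY_odd (m : ℕ) : coeff (2 * m + 1) YY = 0 := yy_odd m

lemma coeff_GG_odd (m : ℕ) : coeff (2 * m + 1) GG = 0 := by
  rw [coeff_GG, yy_odd, mul_zero]

lemma coeff_prod' (P Q : PowerSeries ℚ) (hP : ∀ m, coeff (2 * m + 1) P = 0) (k : ℕ) (a b : ℚ) :
    coeff (2 * k) (rescale a P * rescale b Q) =
      ∑ i ∈ range (k + 1), coeff (2 * i) P * coeff (2 * (k - i)) Q *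
        (a ^ (2 * i) * b ^ (2 * (k - i))) := by
  rw [coeff_mul, Finset.Nat.sum_antidiagonal_eq_sum_range_succ_mk]
  have h1 : ∀ m : ℕ, ∑ i ∈ range (2 * m + 1), (coeff i (rescale a P) * coeff (2 * k - i) (rescale b Q)) =
      ∑ i ∈ range (m + 1), coeff (2 * i) (rescale a P) * coeff (2 * k - 2 * i) (rescale b Q) := by
    intro m
    induction m with
    | zero => simp
    | succ m ih =>
      rw [show 2 * (m + 1) + 1 = (2 * m + 1) + 1 + 1 by ring, Finset.sum_range_succ,
        Finset.sum_range_succ, ih, Finset.sum_range_succ _ (m + 1)]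
      have : coeff (2 * m + 1) (rescale a P) = 0 := by
        rw [coeff_rescale, hP, mul_zero]
      rw [this, zero_mul, add_zero]
      rfl
  have h2 := h1 k
  rw [Nat.succ_eq_add_one, h2]
  refine Finset.sum_congr rfl (fun i hi => ?_)
  rw [coeff_rescale, coeff_rescale, ← Nat.mul_sub]
  ring

/-- general extraction of the coefficients -/
lemma identity_gen (P Q R : PowerSeries ℚ) (S T : PowerSeries ℚ)
    (hP : ∀ m, coeff (2 * m + 1) P = 0) (hS : ∀ m, coeff (2 * m + 1) S = 0) (k : ℕ) (hk : 2 ≤ k)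
    (a b : ℚ)
    (h : rescale (a + b) P * (C b * rescale a Q + C a * rescale b R)
      = C (a + b) * (rescale a S * rescale b T + C (a * b / 4) * X ^ 2)) :
    ∑ i ∈ range (k + 1), (coeff (2 * i) S * coeff (2 * (k - i)) T *
        ((a + b) * (a ^ (2 * i) * b ^ (2 * (k - i)))) -
      coeff (2 * i) P * coeff (2 * (k - i)) R * (a * ((a + b) ^ (2 * i) * b ^ (2 * (k - i)))) -
      coeff (2 * i) P * coeff (2 * (k - i)) Q * (b * ((a + b) ^ (2 * i) * a ^ (2 * (k - i))))) = 0 := by
  have h1 := congrArg (coeff (2 * k)) h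
  have e1 : rescale (a + b) P * (C b * rescale a Q + C a * rescale b R) =
      C b * (rescale (a + b) P * rescale a Q) + C a * (rescale (a + b) P * rescale b R) := by ring
  rw [e1, map_add, coeff_C_mul, coeff_C_mul, coeff_C_mul, map_add, coeff_prod' _ _ hP,
    coeff_prod' _ _ hP, coeff_prod' _ _ hS, coeff_C_mul,
    coeff_X_pow, if_neg (by omega), mul_zero, add_zero] at h1
  rw [Finset.sum_sub_distrib, Finset.sum_sub_distrib]
  have e2 : ∀ (c : ℚ) (f g : ℕ → ℚ), ∑ i ∈ range (k + 1), f i * (c * g i) =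
      c * ∑ i ∈ range (k + 1), f i * g i := by
    intro c f g
    rw [Finset.mul_sum]
    exact Finset.sum_congr rfl fun i _ => by ring
  rw [e2 (a + b) (fun i => coeff (2 * i) S * coeff (2 * (k - i)) T),
    e2 a (fun i => coeff (2 * i) P * coeff (2 * (k - i)) R),
    e2 b (fun i => coeff (2 * i) P * coeff (2 * (k - i)) Q)]
  linear_combination -h1

end Rat

end Pool.Agent.H64.RP
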