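import Mathlib
import Pool.Agent.H64.RP.Rel

/-!
# The three relations modulo `p`
-/

set_option autoImplicit false

namespace Pool.Agent.H64.RP

open Polynomial Finset Pool.Agent.TH350.AddF Pool.Agent.TH350.SumReg Pool.Agent.H332R2

section

variable (F : Type*) [Field F]

/-- the three families -/
noncomputable def fA (i : ℕ) : F[X] := (X + 1) * X ^ (2 * i)
noncomputable def fB (i : ℕ) : F[X] := X * (X + 1) ^ (2 * i)
noncomputable def fG (N i : ℕ) : F[X] := X ^ (2 * (N - i)) * (X + 1) ^ (2 * i)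

lemma natDegree_X1 : (X + 1 : F[X]).natDegree = 1 := by
  have e : (X + 1 : F[X]) = X + C 1 := by simp
  rw [e, natDegree_X_add_C]

lemma natDegree_X1_pow (m : ℕ) : ((X + 1 : F[X]) ^ m).natDegree = m := by
  rw [natDegree_pow, natDegree_X1, mul_one]

lemma X1_ne : (X + 1 : F[X]) ≠ 0 := X_add_C_ne_zero 1

lemma natDegree_fA (i : ℕ) : (fA F i).natDegree = 2 * i + 1 := by
  unfold fA
  rw [natDegree_mul (X1_ne F) (pow_ne_zero _ X_ne_zero), natDegree_X1, natDegree_X_pow]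
  ring

lemma natDegree_fB (i : ℕ) : (fB F i).natDegree = 2 * i + 1 := by
  unfold fB
  rw [natDegree_mul X_ne_zero (pow_ne_zero _ (X1_ne F)), natDegree_X1_pow, natDegree_X]
  ring

lemma natDegree_fG (N i : ℕ) (hi : i ≤ N) : (fG F N i).natDegree = 2 * N := by
  unfold fG
  rw [natDegree_mul (pow_ne_zero _ X_ne_zero) (pow_ne_zero _ (X1_ne F)), natDegree_X1_pow,
    natDegree_X_pow]
  omega

end

variable {p : ℕ} [hp : Fact p.Prime]

lemma cast_gen (k : ℕ) (hkp : 2 * k + 3 ≤ p) (c : ℕ → ℤ)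
    (h : ∑ i ∈ range (k + 1), yy (2 * i) * yy (2 * (k - i)) * ((c i : ℤ) : ℚ) = 0) :
    ∑ i ∈ range (k + 1), ww p k i * ((c i : ℤ) : ZMod p) = 0 := by
  have hok : ∀ i ∈ range (k + 1), ((yy (2 * i) * yy (2 * (k - i)) * ((c i : ℤ) : ℚ)).den : ZMod p) ≠ 0 := by
    intro i hi
    rw [Finset.mem_range] at hi
    exact den_mul_ne (den_mul_ne (yy_ok (by omega)).1 (yy_ok (by omega)).1) (int_ok _).1
  have h2 := (cast_sum_ok (F := ZMod p) (range (k + 1)) _ hok).2
  rw [h, Rat.cast_zero] at h2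
  rw [h2]
  refine Finset.sum_congr rfl (fun i hi => ?_)
  rw [Finset.mem_range] at hi
  have a1 := yy_ok (p := p) (m := i) (by omega)
  have a2 := yy_ok (p := p) (m := k - i) (by omega)
  have a3 := int_ok (p := p) (c i)
  rw [Rat.cast_mul_of_ne_zero (den_mul_ne a1.1 a2.1) a3.1, Rat.cast_mul_of_ne_zero a1.1 a2.1,
    a1.2, a2.2, a3.2]
  rfl

lemma poly_gen (k : ℕ) (hkp : 2 * k + 3 ≤ p) (α β γ : ℕ → ZMod p)
    (h : ∀ t : ℕ, 1 ≤ t → ∑ i ∈ range (k + 1), ww p k i *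
      (α i * (((t : ZMod p) + 1) * (t : ZMod p) ^ (2 * i)) +
       β i * ((t : ZMod p) * ((t : ZMod p) + 1) ^ (2 * i)) +
       γ i * ((t : ZMod p) ^ (2 * (k - i)) * ((t : ZMod p) + 1) ^ (2 * i))) = 0) :
    ∑ i ∈ range (k + 1), C (ww p k i) * (C (α i) * fA (ZMod p) i + C (β i) * fB (ZMod p) i +
      C (γ i) * fG (ZMod p) k i) = 0 := by
  apply Polynomial.eq_zero_of_natDegree_lt_card_of_eval_eq_zero (f := fun x : ZMod p => x)
    (hf := fun _ _ h => h)
  · intro x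
    obtain ⟨t, ht, hx⟩ : ∃ t : ℕ, 1 ≤ t ∧ (t : ZMod p) = x := by
      refine ⟨x.val + p, ?_, ?_⟩
      · have := hp.out.pos; omega
      · push_cast
        simp
    have h' := h t ht
    rw [hx] at h'
    rw [← h', eval_finsetSum]
    refine Finset.sum_congr rfl (fun i _ => ?_)
    simp [fA, fB, fG]
  · rw [ZMod.card]
    have : natDegree (∑ i ∈ range (k + 1), C (ww p k i) * (C (α i) * fA (ZMod p) i +
      C (β i) * fB (ZMod p) i + C (γ i) * fG (ZMod p) k i)) ≤ 2 * k + 1 := by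
      refine natDegree_sum_le_of_forall_le _ _ (fun i hi => ?_)
      rw [Finset.mem_range] at hi
      refine (natDegree_C_mul_le _ _).trans ?_
      have d1 := (natDegree_C_mul_le (α i) (fA (ZMod p) i))
      have d2 := (natDegree_C_mul_le (β i) (fB (ZMod p) i))
      have d3 := (natDegree_C_mul_le (γ i) (fG (ZMod p) k i))
      rw [natDegree_fA] at d1
      rw [natDegree_fB] at d2
      rw [natDegree_fG _ _ _ (by omega)] at d3
      refine (natDegree_add_le _ _).trans (max_le ((natDegree_add_le _ _).trans (max_le ?_ ?_)) ?_)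
      · omega
      · omega
      · omega
    omega

/-- `4 ^ i - 1` -/
def mu (p : ℕ) (i : ℕ) : ZMod p := (4 : ZMod p) ^ i - 1

lemma two_pow_two (i : ℕ) : (2 : ℚ) ^ (2 * i) = 4 ^ i := by
  rw [pow_mul]; norm_num

/-- the addition theorem -/
theorem rel1 (k : ℕ) (hk : 2 ≤ k) (hkp : 2 * k + 3 ≤ p) :
    ∑ i ∈ range (k + 1), C (ww p k i) * (C (1 : ZMod p) * fA (ZMod p) i +
      C (-1 : ZMod p) * fB (ZMod p) i + C (-1 : ZMod p) * fG (ZMod p) k i) = 0 := by
  refine poly_gen k hkp (fun _ => 1) (fun _ => -1) (fun _ => -1) fun t ht => ?_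
  have ht0 : (t : ℚ) ≠ 0 := by positivity
  have ht1 : (t : ℚ) + 1 ≠ 0 := by positivity
  have h := identity_gen YY YY YY YY YY coeff_YY_odd coeff_YY_odd k hk t 1
    (addition t 1 ht0 one_ne_zero ht1)
  have h2 := cast_gen (p := p) k hkp (fun i => (1 : ℤ) * (((t : ℤ) + 1) * (t : ℤ) ^ (2 * i)) +
    (-1) * ((t : ℤ) * ((t : ℤ) + 1) ^ (2 * i)) +
    (-1) * ((t : ℤ) ^ (2 * (k - i)) * ((t : ℤ) + 1) ^ (2 * i))) (by
      rw [← h]
      refine Finset.sum_congr rfl (fun i _ => ?_)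
      push_cast
      unfold yy
      rw [one_pow]
      ring)
  rw [← h2]
  refine Finset.sum_congr rfl (fun i _ => ?_)
  push_cast
  ring

theorem rel3 (k : ℕ) (hk : 2 ≤ k) (hkp : 2 * k + 3 ≤ p) :
    ∑ i ∈ range (k + 1), C (ww p k i) * (C (mu p i * mu p (k - i)) * fA (ZMod p) i +
      C (- mu p (k - i)) * fB (ZMod p) i + C (- mu p (k - i)) * fG (ZMod p) k i) = 0 := by
  refine poly_gen k hkp (fun i => mu p i * mu p (k - i)) (fun i => - mu p (k - i))
    (fun i => - mu p (k - i)) fun t ht => ?_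
  have ht0 : (t : ℚ) ≠ 0 := by positivity
  have ht1 : (t : ℚ) + 1 ≠ 0 := by positivity
  have h := identity_gen YY GG GG GG GG coeff_YY_odd coeff_GG_odd k hk t 1
    (addition3 t 1 ht0 one_ne_zero ht1)
  have h2 := cast_gen (p := p) k hkp (fun i => ((4 : ℤ) ^ i - 1) * ((4 : ℤ) ^ (k - i) - 1) *
      (((t : ℤ) + 1) * (t : ℤ) ^ (2 * i)) +
    (-((4 : ℤ) ^ (k - i) - 1)) * ((t : ℤ) * ((t : ℤ) + 1) ^ (2 * i)) +
    (-((4 : ℤ) ^ (k - i) - 1)) * ((t : ℤ) ^ (2 * (k - i)) * ((t : ℤ) + 1) ^ (2 * i))) (by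
      rw [← h]
      refine Finset.sum_congr rfl (fun i _ => ?_)
      rw [coeff_GG, coeff_GG, two_pow_two, two_pow_two]
      push_cast
      unfold yy
      rw [one_pow]
      ring)
  rw [← h2]
  refine Finset.sum_congr rfl (fun i _ => ?_)
  unfold mu
  push_cast
  ring

theorem rel2 (k : ℕ) (hk : 2 ≤ k) (hkp : 2 * k + 3 ≤ p) :
    ∑ i ∈ range (k + 1), C (ww p k i) * (C (mu p (k - i)) * fA (ZMod p) i +
      C (- (mu p i * mu p (k - i))) * fB (ZMod p) i + C (- mu p i) * fG (ZMod p) k i) = 0 := by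
  refine poly_gen k hkp (fun i => mu p (k - i)) (fun i => - (mu p i * mu p (k - i)))
    (fun i => - mu p i) fun t ht => ?_
  have ht0 : (t : ℚ) ≠ 0 := by positivity
  have ht1 : (t : ℚ) + 1 ≠ 0 := by positivity
  have h := identity_gen GG YY GG YY GG coeff_GG_odd coeff_YY_odd k hk t 1
    (addition2 t 1 ht0 one_ne_zero ht1)
  have h2 := cast_gen (p := p) k hkp (fun i => ((4 : ℤ) ^ (k - i) - 1) *
      (((t : ℤ) + 1) * (t : ℤ) ^ (2 * i)) +
    (-(((4 : ℤ) ^ i - 1) * ((4 : ℤ) ^ (k - i) - 1))) * ((t : ℤ) * ((t : ℤ) + 1) ^ (2 * i)) +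
    (-((4 : ℤ) ^ i - 1)) * ((t : ℤ) ^ (2 * (k - i)) * ((t : ℤ) + 1) ^ (2 * i))) (by
      rw [← h]
      refine Finset.sum_congr rfl (fun i _ => ?_)
      rw [coeff_GG, coeff_GG, two_pow_two, two_pow_two]
      push_cast
      unfold yy
      rw [one_pow]
      ring)
  rw [← h2]
  refine Finset.sum_congr rfl (fun i _ => ?_)
  unfold mu
  push_cast
  ring

end Pool.Agent.H64.RP
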