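import Mathlib
import Pool.Graph.R_seed8.Y374.RP.Star2
import Pool.Agent.H64.RP.Pl2
import Pool.Agent.H64.RP.Rel2

/-!
# The number of the representations as a sum of two regular indices
-/

set_option autoImplicit false

namespace Pool.Agent.H64.RP

open Polynomial Finset Module Pool.Agent.TH350.SumReg Pool.Agent.H332R2
open Pool.Agent.Y374.RP (JJ mem_JJ ww_symm two_exists_all)
open Pool.Agent.TH10.RP (two_types)

variable (p : ℕ) [hp : Fact p.Prime] (N V : ℕ)

/-- functions of two types are independent -/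
lemma two_types' (hN : 2 * N + 3 ≤ p) (α β γ : ℕ → ZMod p)
    (h : ∑ i ∈ range (N + 1), (C (α i) * fA (ZMod p) i + C (β i) * fB (ZMod p) i +
      C (γ i) * fG (ZMod p) N i) = 0)
    (h0 : (∀ i ∈ range (N + 1), α i = 0) ∨ (∀ i ∈ range (N + 1), β i = 0) ∨
      (∀ i ∈ range (N + 1), γ i = 0)) :
    ∀ i ∈ range (N + 1), α i = 0 ∧ β i = 0 ∧ γ i = 0 := by
  refine two_types p N hN α β γ (fun x => ?_) h0
  have h2 := congrArg (eval x) h
  rw [eval_finsetSum, eval_zero] at h2
  refine (Finset.sum_congr rfl fun i _ => ?_).trans h2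
  unfold fA fB fG
  simp only [eval_add, eval_mul, eval_C, eval_X, eval_pow, eval_one]
  ring

/-- the indices of the functions -/
noncomputable def KK : Finset ℕ := (range (V + 1) ∪ Icc (N - V) N) ∪ JJ p N V

variable {p N V}

lemma mem_KK {i : ℕ} (hV : 2 * V < N) : i ∈ KK p N V ↔ i ≤ N ∧ (i ≤ V ∨ N - V ≤ i ∨ ww p N i ≠ 0) := by
  unfold KK
  rw [mem_union, mem_union, mem_range, mem_Icc, mem_JJ]
  constructor
  · rintro ((h | h) | h)
    · exact ⟨by omega, Or.inl (by omega)⟩
    · exact ⟨h.2, Or.inr (Or.inl h.1)⟩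
    · exact ⟨by omega, Or.inr (Or.inr h.2)⟩
  · rintro ⟨h1, h2 | h2 | h2⟩
    · left; left; omega
    · left; right; omega
    · by_cases h3 : i ≤ V
      · left; left; omega
      · by_cases h4 : N - V ≤ i
        · left; right; omega
        · right; exact ⟨by omega, h2⟩

lemma KK_refl (hV : 2 * V < N) {i : ℕ} (hi : i ∈ KK p N V) : N - i ∈ KK p N V := by
  rw [mem_KK hV] at hi ⊢
  obtain ⟨h1, h2⟩ := hi
  refine ⟨by omega, ?_⟩
  rcases h2 with h | h | h
  · right; left; omega
  · left; omega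
  · right; right
    rwa [ww_symm p N i h1]

lemma KK_hi (hV : 2 * V < N) : (KK p N V).filter (fun i => V < i) = Icc (N - V) N ∪ JJ p N V := by
  ext i
  rw [mem_filter, mem_KK hV, mem_union, mem_Icc, mem_JJ]
  constructor
  · rintro ⟨⟨h1, h2 | h2 | h2⟩, h3⟩
    · omega
    · left; omega
    · by_cases h4 : N - V ≤ i
      · left; omega
      · right; exact ⟨by omega, h2⟩
  · rintro (h | h)
    · exact ⟨⟨h.2, Or.inr (Or.inl h.1)⟩, by omega⟩
    · exact ⟨⟨by omega, Or.inr (Or.inr h.2)⟩, by omega⟩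

lemma KK_lo (hV : 2 * V < N) : (KK p N V).filter (fun i => i < N - V) = range (V + 1) ∪ JJ p N V := by
  ext i
  rw [mem_filter, mem_KK hV, mem_union, mem_range, mem_JJ]
  constructor
  · rintro ⟨⟨h1, h2 | h2 | h2⟩, h3⟩
    · left; omega
    · omega
    · by_cases h4 : i ≤ V
      · left; omega
      · right; exact ⟨by omega, h2⟩
  · rintro (h | h)
    · exact ⟨⟨by omega, Or.inl (by omega)⟩, by omega⟩
    · exact ⟨⟨by omega, Or.inr (Or.inr h.2)⟩, by omega⟩

lemma disj_hi : Disjoint (Icc (N - V) N) (JJ p N V) := by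
  rw [disjoint_left]
  intro i h1 h2
  rw [mem_Icc] at h1
  rw [mem_JJ] at h2
  omega

lemma disj_lo : Disjoint (range (V + 1)) (JJ p N V) := by
  rw [disjoint_left]
  intro i h1 h2
  rw [mem_range] at h1
  rw [mem_JJ] at h2
  omega

lemma JJ_sum : 2 * ∑ i ∈ JJ p N V, i = N * (JJ p N V).card := by
  have h1 : ∑ i ∈ JJ p N V, i = ∑ i ∈ JJ p N V, (N - i) := by
    refine Finset.sum_nbij' (fun i => N - i) (fun i => N - i) ?_ ?_ ?_ ?_ ?_
    · intro i hi
      rw [mem_JJ] at hi ⊢
      rw [ww_symm p N i (by omega)]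
      exact ⟨by omega, hi.2⟩
    · intro i hi
      rw [mem_JJ] at hi ⊢
      rw [ww_symm p N i (by omega)]
      exact ⟨by omega, hi.2⟩
    · intro i hi
      rw [mem_JJ] at hi
      omega
    · intro i hi
      rw [mem_JJ] at hi
      omega
    · intro i hi
      rw [mem_JJ] at hi
      omega
  have h2 : ∑ i ∈ JJ p N V, i + ∑ i ∈ JJ p N V, (N - i) = ∑ i ∈ JJ p N V, N := by
    rw [← sum_add_distrib]
    refine sum_congr rfl fun i hi => ?_
    rw [mem_JJ] at hi
    omega
  rw [sum_const, smul_eq_mul] at h2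
  nlinarith

lemma sum_range_four (V : ℕ) : ∑ i ∈ range (V + 1), (4 * i + 1) = (V + 1) * (2 * V + 1) := by
  induction V with
  | zero => simp
  | succ V ih => rw [sum_range_succ, ih]; ring

lemma sum_Icc_four (hV : V ≤ N) :
    ∑ i ∈ Icc (N - V) N, (4 * i + 1) + (V + 1) * (2 * V) = (V + 1) * (4 * N + 1) := by
  induction V with
  | zero => simp
  | succ V ih =>
    have h1 : Icc (N - (V + 1)) N = insert (N - (V + 1)) (Icc (N - V) N) := by
      ext i
      rw [mem_insert, mem_Icc, mem_Icc]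
      omega
    rw [h1, sum_insert (by rw [mem_Icc]; omega)]
    have h2 := ih (by omega)
    obtain ⟨M, hM⟩ : ∃ M, N = M + (V + 1) := ⟨N - (V + 1), by omega⟩
    have h3 : N - (V + 1) = M := by omega
    rw [h3]
    have h4 : 4 * N + 1 = 4 * M + 4 * V + 5 := by omega
    rw [h4] at h2 ⊢
    nlinarith

lemma sum_hi (hV : 2 * V < N) :
    ∑ i ∈ (KK p N V).filter (fun i => V < i), (4 * i + 1) + (V + 1) * (2 * V) =
      (V + 1) * (4 * N + 1) + (2 * N + 1) * (JJ p N V).card := by
  rw [KK_hi hV, sum_union disj_hi, add_right_comm, sum_Icc_four (by omega)]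
  congr 1
  rw [sum_add_distrib, ← Finset.mul_sum, sum_const, smul_eq_mul]
  have := JJ_sum (p := p) (N := N) (V := V)
  nlinarith

lemma sum_lo (hV : 2 * V < N) :
    ∑ i ∈ (KK p N V).filter (fun i => i < N - V), (4 * i + 1) =
      (V + 1) * (2 * V + 1) + (2 * N + 1) * (JJ p N V).card := by
  rw [KK_lo hV, sum_union disj_lo, sum_range_four]
  congr 1
  rw [sum_add_distrib, ← Finset.mul_sum, sum_const, smul_eq_mul]
  have := JJ_sum (p := p) (N := N) (V := V)
  nlinarith

lemma card_hi (hV : 2 * V < N) :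
    ((KK p N V).filter (fun i => V < i)).card = V + 1 + (JJ p N V).card := by
  rw [KK_hi hV, card_union_of_disjoint disj_hi, Nat.card_Icc]
  omega

lemma card_lo (hV : 2 * V < N) :
    ((KK p N V).filter (fun i => i < N - V)).card = V + 1 + (JJ p N V).card := by
  rw [KK_lo hV, card_union_of_disjoint disj_lo, card_range]

lemma card_KK (hV : 2 * V < N) : (KK p N V).card = 2 * (V + 1) + (JJ p N V).card := by
  unfold KK
  rw [card_union_of_disjoint, card_union_of_disjoint, card_range, Nat.card_Icc]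
  · omega
  · rw [disjoint_left]
    intro i h1 h2
    rw [mem_range] at h1
    rw [mem_Icc] at h2
    omega
  · rw [disjoint_union_left]
    exact ⟨disj_lo, disj_hi⟩

lemma KK_sub (hV : 2 * V < N) : KK p N V ⊆ range (N + 1) := by
  intro i hi
  rw [mem_KK hV] at hi
  rw [mem_range]
  omega

end Pool.Agent.H64.RP
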