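import Mathlib
import Pool.Agent.H64.RP.Main

/-!
# The number of the representations as a sum of two regular indices (2)
-/

set_option autoImplicit false

namespace Pool.Agent.H64.RP

open Polynomial Finset Module Pool.Agent.TH350.SumReg Pool.Agent.H332R2
open Pool.Agent.Y374.RP (JJ mem_JJ ww_symm two_exists_all)

variable (p : ℕ) [hp : Fact p.Prime] (N V : ℕ)

/-- the functions -/
noncomputable def fam (x : ℕ × ℕ) : (ZMod p)[X] :=
  if x.1 = 0 then fA (ZMod p) x.2 else if x.1 = 1 then fB (ZMod p) x.2 else fG (ZMod p) N x.2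

lemma fam_zero (i : ℕ) : fam p N (0, i) = fA (ZMod p) i := rfl
lemma fam_one (i : ℕ) : fam p N (1, i) = fB (ZMod p) i := rfl
lemma fam_two (i : ℕ) : fam p N (2, i) = fG (ZMod p) N i := rfl

/-- the index set -/
noncomputable def SS : Finset (ℕ × ℕ) := range 3 ×ˢ KK p N V

/-- the space of functions -/
noncomputable def WW : Submodule (ZMod p) (ZMod p)[X] :=
  Submodule.span (ZMod p) (Set.range fun x : SS p N V => fam p N x)

lemma sum_SS {M : Type*} [AddCommMonoid M] (g : ℕ × ℕ → M) :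
    ∑ x ∈ SS p N V, g x = ∑ i ∈ KK p N V, (g (0, i) + g (1, i) + g (2, i)) := by
  unfold SS
  rw [sum_product, sum_range_succ, sum_range_succ, sum_range_one, sum_add_distrib, sum_add_distrib]

lemma mem_WW (a i : ℕ) (ha : a < 3) (hi : i ∈ KK p N V) : fam p N (a, i) ∈ WW p N V :=
  Submodule.subset_span ⟨⟨(a, i), mem_product.2 ⟨mem_range.2 ha, hi⟩⟩, rfl⟩

lemma fA_mem (i : ℕ) (hi : i ∈ KK p N V) : fA (ZMod p) i ∈ WW p N V := mem_WW p N V 0 i (by norm_num) hi
lemma fB_mem (i : ℕ) (hi : i ∈ KK p N V) : fB (ZMod p) i ∈ WW p N V := mem_WW p N V 1 i (by norm_num) hi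
lemma fG_mem (i : ℕ) (hi : i ∈ KK p N V) : fG (ZMod p) N i ∈ WW p N V :=
  mem_WW p N V 2 i (by norm_num) hi

lemma WW_natDegree (hV : 2 * V < N) : ∀ g ∈ WW p N V, g.natDegree ≤ 2 * N + 1 := by
  have h1 : WW p N V ≤ degreeLE (ZMod p) ((2 * N + 1 : ℕ) : WithBot ℕ) := by
    unfold WW
    rw [Submodule.span_le]
    rintro _ ⟨⟨⟨a, i⟩, hx⟩, rfl⟩
    unfold SS at hx
    rw [mem_product, mem_range] at hx
    have hi : i ≤ N := ((mem_KK hV).1 hx.2).1
    simp only [SetLike.mem_coe]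
    rw [mem_degreeLE]
    apply degree_le_of_natDegree_le
    unfold fam
    simp only
    split_ifs
    · rw [natDegree_fA]; omega
    · rw [natDegree_fB]; omega
    · rw [natDegree_fG _ _ _ hi]; omega
  intro g hg
  have h2 := h1 hg
  rw [mem_degreeLE] at h2
  exact natDegree_le_of_degree_le h2

lemma ext_sum (T : Finset ℕ) (hT : T ⊆ range (N + 1)) (c : ℕ → ZMod p) (P : ℕ → (ZMod p)[X]) :
    ∑ i ∈ T, C (c i) * P i = ∑ i ∈ range (N + 1), C (if i ∈ T then c i else 0) * P i := by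
  classical
  rw [← sum_subset hT]
  · refine sum_congr rfl fun i hi => ?_
    rw [if_pos hi]
  · intro i _ hi
    rw [if_neg hi, C_0, zero_mul]

lemma ext_sum' (T : Finset ℕ) (hT : T ⊆ range (N + 1)) (c : ℕ → ZMod p) (P : ℕ → (ZMod p)[X]) :
    ∑ i ∈ T, C (c i) * P (N - i) =
      ∑ i ∈ range (N + 1), C (if N - i ∈ T then c (N - i) else 0) * P i := by
  classical
  rw [ext_sum p N T hT c (fun i => P (N - i)),
    ← sum_range_reflect (fun i => C (if N - i ∈ T then c (N - i) else 0) * P i) (N + 1)]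
  refine sum_congr rfl fun i hi => ?_
  rw [mem_range] at hi
  rw [show N + 1 - 1 - i = N - i by omega, show N - (N - i) = i by omega]

/-- the families of functions with many zeros at `0`, `-1` and `∞` -/
noncomputable def f0 (x : ℕ × ℕ) : (ZMod p)[X] :=
  if x.1 = 0 then fA (ZMod p) x.2 else fA (ZMod p) x.2 - fG (ZMod p) N (N - x.2)
noncomputable def f1 (x : ℕ × ℕ) : (ZMod p)[X] :=
  if x.1 = 0 then fB (ZMod p) x.2 else fB (ZMod p) x.2 + fG (ZMod p) N x.2
noncomputable def f2 (x : ℕ × ℕ) : (ZMod p)[X] :=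
  if x.1 = 0 then fA (ZMod p) x.2 else fA (ZMod p) x.2 - fB (ZMod p) x.2

lemma sum_two {M : Type*} [AddCommMonoid M] (T : Finset ℕ) (g : ℕ × ℕ → M) :
    ∑ x ∈ range 2 ×ˢ T, g x = ∑ i ∈ T, (g (0, i) + g (1, i)) := by
  rw [sum_product, sum_range_succ, sum_range_one, sum_add_distrib]

lemma mem_two (T : Finset ℕ) (Q : ℕ × ℕ → Prop) (h : ∀ i ∈ T, Q (0, i) ∧ Q (1, i)) :
    ∀ x ∈ range 2 ×ˢ T, Q x := by
  rintro ⟨a, i⟩ hx
  rw [mem_product, mem_range] at hx
  have ha : a < 2 := hx.1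
  interval_cases a
  · exact (h i hx.2).1
  · exact (h i hx.2).2

lemma li0 (hN : 2 * N + 3 ≤ p) (T : Finset ℕ) (hT : T ⊆ range (N + 1)) (g : ℕ × ℕ → ZMod p)
    (hg : ∑ x ∈ range 2 ×ˢ T, g x • f0 p N x = 0) : ∀ x ∈ range 2 ×ˢ T, g x = 0 := by
  classical
  rw [sum_two] at hg
  have h1 := two_types' p N hN (fun i => if i ∈ T then g (0, i) + g (1, i) else 0) (fun _ => 0)
    (fun i => if N - i ∈ T then - g (1, N - i) else 0) (by
      rw [sum_add_distrib, sum_add_distrib,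
        ← ext_sum p N T hT (fun i => g (0, i) + g (1, i)) (fA (ZMod p)),
        ← ext_sum' p N T hT (fun i => - g (1, i)) (fG (ZMod p) N)]
      rw [← hg]
      simp only [C_0, zero_mul, sum_const_zero, add_zero]
      rw [← sum_add_distrib]
      refine sum_congr rfl fun i _ => ?_
      unfold f0
      simp only [if_true, one_ne_zero, if_false, smul_eq_C_mul, C_add, C_neg]
      ring) (Or.inr (Or.inl fun _ _ => rfl))
  refine mem_two T _ fun i hi => ?_
  have hiN : i < N + 1 := mem_range.1 (hT hi)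
  have h2 := (h1 i (hT hi)).1
  have h3 := (h1 (N - i) (mem_range.2 (by omega))).2.2
  rw [if_pos hi] at h2
  rw [show N - (N - i) = i by omega, if_pos hi, neg_eq_zero] at h3
  rw [h3, add_zero] at h2
  exact ⟨h2, h3⟩

lemma li1 (hN : 2 * N + 3 ≤ p) (T : Finset ℕ) (hT : T ⊆ range (N + 1)) (g : ℕ × ℕ → ZMod p)
    (hg : ∑ x ∈ range 2 ×ˢ T, g x • f1 p N x = 0) : ∀ x ∈ range 2 ×ˢ T, g x = 0 := by
  classical
  rw [sum_two] at hg
  have h1 := two_types' p N hN (fun _ => 0) (fun i => if i ∈ T then g (0, i) + g (1, i) else 0)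
    (fun i => if i ∈ T then g (1, i) else 0) (by
      rw [sum_add_distrib, sum_add_distrib,
        ← ext_sum p N T hT (fun i => g (0, i) + g (1, i)) (fB (ZMod p)),
        ← ext_sum p N T hT (fun i => g (1, i)) (fG (ZMod p) N)]
      rw [← hg]
      simp only [C_0, zero_mul, sum_const_zero, zero_add]
      rw [← sum_add_distrib]
      refine sum_congr rfl fun i _ => ?_
      unfold f1
      simp only [if_true, one_ne_zero, if_false, smul_eq_C_mul, C_add]
      ring) (Or.inl fun _ _ => rfl)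
  refine mem_two T _ fun i hi => ?_
  obtain ⟨_, h2, h3⟩ := h1 i (hT hi)
  rw [if_pos hi] at h2 h3
  rw [h3, add_zero] at h2
  exact ⟨h2, h3⟩

lemma li2 (hN : 2 * N + 3 ≤ p) (T : Finset ℕ) (hT : T ⊆ range (N + 1)) (g : ℕ × ℕ → ZMod p)
    (hg : ∑ x ∈ range 2 ×ˢ T, g x • f2 p x = 0) : ∀ x ∈ range 2 ×ˢ T, g x = 0 := by
  classical
  rw [sum_two] at hg
  have h1 := two_types' p N hN (fun i => if i ∈ T then g (0, i) + g (1, i) else 0)
    (fun i => if i ∈ T then - g (1, i) else 0) (fun _ => 0) (by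
      rw [sum_add_distrib, sum_add_distrib,
        ← ext_sum p N T hT (fun i => g (0, i) + g (1, i)) (fA (ZMod p)),
        ← ext_sum p N T hT (fun i => - g (1, i)) (fB (ZMod p))]
      rw [← hg]
      simp only [C_0, zero_mul, sum_const_zero, add_zero]
      rw [← sum_add_distrib]
      refine sum_congr rfl fun i _ => ?_
      unfold f2
      simp only [if_true, one_ne_zero, if_false, smul_eq_C_mul, C_add, C_neg]
      ring) (Or.inr (Or.inr fun _ _ => rfl))
  refine mem_two T _ fun i hi => ?_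
  obtain ⟨h2, h3, _⟩ := h1 i (hT hi)
  rw [if_pos hi] at h2 h3
  rw [neg_eq_zero] at h3
  rw [h3, add_zero] at h2
  exact ⟨h2, h3⟩

lemma dvd0 (i : ℕ) (hi : i ≤ N) : X ^ (2 * i) ∣ fA (ZMod p) i ∧
    X ^ (2 * i + 1) ∣ fA (ZMod p) i - fG (ZMod p) N (N - i) := by
  refine ⟨Dvd.intro_left _ rfl, ?_⟩
  have h1 : (X : (ZMod p)[X]) ∣ (X + 1) - (X + 1) ^ (2 * (N - i)) := by
    rw [X_dvd_iff, coeff_zero_eq_eval_zero]
    simp
  obtain ⟨q, hq⟩ := h1
  refine ⟨q, ?_⟩
  unfold fA fG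
  rw [show N - (N - i) = i by omega]
  linear_combination X ^ (2 * i) * hq

lemma dvd1 (i : ℕ) : (X + 1) ^ (2 * i) ∣ fB (ZMod p) i ∧
    (X + 1) ^ (2 * i + 1) ∣ fB (ZMod p) i + fG (ZMod p) N i := by
  refine ⟨Dvd.intro_left _ rfl, ?_⟩
  have h1 : (X + 1 : (ZMod p)[X]) ∣ X + X ^ (2 * (N - i)) := by
    have e : (X + 1 : (ZMod p)[X]) = X - C (-1) := by simp
    rw [e, dvd_iff_isRoot]
    simp [IsRoot, pow_mul]
  obtain ⟨q, hq⟩ := h1
  refine ⟨q, ?_⟩
  unfold fB fG
  linear_combination (X + 1) ^ (2 * i) * hq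

lemma deg2 (i : ℕ) : (fA (ZMod p) i - fB (ZMod p) i).natDegree ≤ 2 * i := by
  have hA : (fA (ZMod p) i).Monic := by
    unfold fA
    exact (monic_X_add_C 1).mul (monic_X_pow _)
  have hB : (fB (ZMod p) i).Monic := by
    unfold fB
    exact monic_X.mul ((monic_X_add_C 1).pow _)
  have h1 : (fA (ZMod p) i - fB (ZMod p) i).degree < (fA (ZMod p) i).degree := by
    refine degree_sub_lt_left ?_ hA.ne_zero ?_
    · rw [degree_eq_natDegree hA.ne_zero, degree_eq_natDegree hB.ne_zero, natDegree_fA, natDegree_fB]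
    · rw [hA.leadingCoeff, hB.leadingCoeff]
  rw [degree_eq_natDegree hA.ne_zero, natDegree_fA] at h1
  by_cases h0 : fA (ZMod p) i - fB (ZMod p) i = 0
  · rw [h0]; simp
  · have := (natDegree_lt_iff_degree_lt h0).2 h1
    omega

end Pool.Agent.H64.RP
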