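import Mathlib
import Pool.Agent.H64.RP.Main2

/-!
# The number of the representations as a sum of two regular indices (3)
-/

set_option autoImplicit false

namespace Pool.Agent.H64.RP

open Polynomial Finset Module Pool.Agent.TH350.SumReg Pool.Agent.H332R2
open Pool.Agent.Y374.RP (JJ mem_JJ ww_symm two_exists_all)

variable (p : ℕ) [hp : Fact p.Prime] (N V : ℕ)

/-- the inequality for a given number of relations -/
theorem bound_of_rank (hN : 2 * N + 3 ≤ p) (hV : 2 * V < N) (R₀ : ℕ)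
    (hR : R₀ + finrank (ZMod p) (WW p N V) ≤ 3 * (KK p N V).card) :
    R₀ * (2 * N + 1) + R₀ * (R₀ + 1) ≤
      3 * (JJ p N V).card ^ 2 + 6 * (V + 1) * (JJ p N V).card + 6 * (V + 1) * R₀ := by
  classical
  set r := (JJ p N V).card with hr
  set K := KK p N V with hK
  set Th := K.filter (fun i => V < i) with hTh
  set Tl := K.filter (fun i => i < N - V) with hTl
  have hKsub : K ⊆ range (N + 1) := KK_sub hV
  have hThs : Th ⊆ range (N + 1) := (filter_subset _ _).trans hKsub
  have hTls : Tl ⊆ range (N + 1) := (filter_subset _ _).trans hKsub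
  have hThK : ∀ i ∈ Th, i ∈ K := fun i hi => (mem_filter.1 hi).1
  have hTlK : ∀ i ∈ Tl, i ∈ K := fun i hi => (mem_filter.1 hi).1
  have hWf : FiniteDimensional (ZMod p) (WW p N V) := fin_dim _ _ (WW_natDegree p N V hV)
  -- the dimension is at least the number of the functions with many zeros
  obtain ⟨m, hm⟩ : ∃ m, finrank (ZMod p) (WW p N V) = 2 * (V + 1 + r) + m := by
    have h1 : LinearIndepOn (ZMod p) (f1 p N) ((range 2 ×ˢ Th : Finset (ℕ × ℕ)) : Set (ℕ × ℕ)) :=
      linearIndepOn_finset_iff.2 (li1 p N hN Th hThs)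
    have h2 : ∀ x ∈ range 2 ×ˢ Th, f1 p N x ∈ WW p N V := by
      refine mem_two Th _ fun i hi => ⟨fB_mem p N V i (hThK i hi), ?_⟩
      exact Submodule.add_mem _ (fB_mem p N V i (hThK i hi)) (fG_mem p N V i (hThK i hi))
    have h3 : LinearIndependent (ZMod p) (fun x : (range 2 ×ˢ Th : Finset (ℕ × ℕ)) =>
        (⟨f1 p N x, h2 x x.2⟩ : WW p N V)) := by
      refine LinearIndependent.of_comp (WW p N V).subtype ?_
      exact h1
    have h4 := h3.fintype_card_le_finrank
    rw [Fintype.card_coe, card_product, card_range, hTh, hK, card_hi hV, ← hr] at h4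
    exact ⟨_, (Nat.add_sub_cancel' h4).symm⟩
  have hcK := card_KK (p := p) hV
  rw [← hK, ← hr] at hcK
  rw [hcK, hm] at hR
  have hpl := plucker_finset p (2 * N + 1) (by omega) (WW p N V) (WW_natDegree p N V hV)
    (2 * (V + 1 + r)) m hm (f0 p N) (f1 p N) (f2 p) (range 2 ×ˢ Th) (range 2 ×ˢ Th) (range 2 ×ˢ Tl)
    (by rw [card_product, card_range, hTh, hK, card_hi hV])
    (by rw [card_product, card_range, hTh, hK, card_hi hV])
    (by rw [card_product, card_range, hTl, hK, card_lo hV])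
    (li0 p N hN Th hThs) (li1 p N hN Th hThs) (li2 p N hN Tl hTls)
    (mem_two Th _ fun i hi => ⟨fA_mem p N V i (hThK i hi),
      Submodule.sub_mem _ (fA_mem p N V i (hThK i hi)) (fG_mem p N V _ (KK_refl hV (hThK i hi)))⟩)
    (mem_two Th _ fun i hi => ⟨fB_mem p N V i (hThK i hi),
      Submodule.add_mem _ (fB_mem p N V i (hThK i hi)) (fG_mem p N V i (hThK i hi))⟩)
    (mem_two Tl _ fun i hi => ⟨fA_mem p N V i (hTlK i hi),
      Submodule.sub_mem _ (fA_mem p N V i (hTlK i hi)) (fB_mem p N V i (hTlK i hi))⟩)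
    (fun x => 2 * x.2 + x.1) (fun x => 2 * x.2 + x.1) (fun x => 2 * x.2 + (1 - x.1))
    (mem_two Th _ fun i hi => by
      have h1 := dvd0 p N i (Nat.lt_succ_iff.1 (mem_range.1 (hThs hi)))
      exact ⟨h1.1, h1.2⟩)
    (mem_two Th _ fun i hi => by
      have h1 := dvd1 p N i
      exact ⟨h1.1, h1.2⟩)
    (mem_two Tl _ fun i hi => by
      refine ⟨?_, ?_⟩
      · exact (natDegree_fA (ZMod p) i).le
      · exact deg2 p i)
  have e0 : ∑ x ∈ range 2 ×ˢ Th, (2 * x.2 + x.1) = ∑ i ∈ Th, (4 * i + 1) := by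
    rw [sum_two]
    exact sum_congr rfl fun i _ => by ring
  have e2 : ∑ x ∈ range 2 ×ˢ Tl, (2 * x.2 + (1 - x.1)) = ∑ i ∈ Tl, (4 * i + 1) := by
    rw [sum_two]
    exact sum_congr rfl fun i _ => by simp; ring
  rw [e0, e2] at hpl
  have s0 := sum_hi (p := p) hV
  have s2 := sum_lo (p := p) hV
  rw [← hK, ← hTh, ← hr] at s0
  rw [← hK, ← hTl, ← hr] at s2
  set A := ∑ i ∈ Th, (4 * i + 1) with hA
  rw [s2] at hpl
  -- the numbers of relations
  obtain ⟨R, hRe⟩ : ∃ R, m + R = 4 * (V + 1) + r := ⟨4 * (V + 1) + r - m, by omega⟩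
  have hRR : R₀ ≤ R := by omega
  -- integers
  zify at hpl s0 hRe hRR ⊢
  have hm' : (m : ℤ) = 4 * (V + 1) + r - R := by linarith
  have hA' : (A : ℤ) = (V + 1) * (4 * N + 1) + (2 * N + 1) * r - (V + 1) * (2 * V) := by linarith
  rw [hm', hA'] at hpl
  have h1 : (R : ℤ) * ((2 * N + 1) - 6 * (V + 1) + R + 1) ≤ 3 * r ^ 2 + 6 * (V + 1) * r := by
    linarith
  have hr0 : (0 : ℤ) ≤ r := by positivity
  have hV0 : (0 : ℤ) ≤ V := by positivity
  have hR00 : (0 : ℤ) ≤ R₀ := by positivity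
  rcases le_or_gt 0 ((2 * N + 1 : ℤ) - 6 * (V + 1) + R₀ + 1) with h2 | h2
  · have h3 : (R₀ : ℤ) * ((2 * N + 1) - 6 * (V + 1) + R₀ + 1) ≤
        R * ((2 * N + 1) - 6 * (V + 1) + R + 1) := by
      apply mul_le_mul hRR (by linarith) h2 (by linarith)
    linarith
  · have h3 : (R₀ : ℤ) * ((2 * N + 1) - 6 * (V + 1) + R₀ + 1) ≤ 0 :=
      mul_nonpos_of_nonneg_of_nonpos hR00 h2.le
    have h4 : (0 : ℤ) ≤ 3 * r ^ 2 + 6 * (V + 1) * r := by positivity
    linarith

/-- the relations as vectors -/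
noncomputable def ev (α β γ : ℕ → ZMod p) (x : ℕ × ℕ) : ZMod p :=
  ww p N x.2 * (if x.1 = 0 then α x.2 else if x.1 = 1 then β x.2 else γ x.2)

lemma ev_rel (hV : 2 * V < N) (α β γ : ℕ → ZMod p)
    (h : ∑ i ∈ range (N + 1), C (ww p N i) * (C (α i) * fA (ZMod p) i +
      C (β i) * fB (ZMod p) i + C (γ i) * fG (ZMod p) N i) = 0) :
    ∑ x ∈ SS p N V, ev p N α β γ x • fam p N x = 0 := by
  rw [sum_SS, ← h]
  rw [← sum_subset (KK_sub (p := p) hV)]
  · refine sum_congr rfl fun i _ => ?_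
    unfold ev fam
    simp only [if_true, one_ne_zero, if_false, smul_eq_C_mul, C_mul, OfNat.ofNat_ne_zero,
      OfNat.ofNat_ne_one]
    ring
  · intro i hi hiK
    have h1 : ww p N i = 0 := by
      by_contra hne
      rw [mem_range] at hi
      exact hiK ((mem_KK hV).2 ⟨by omega, Or.inr (Or.inr hne)⟩)
    rw [h1, C_0, zero_mul]

lemma exists_ww (hN : 2 * N + 3 ≤ p) (hN2 : 2 ≤ N) : ∃ i, i ≤ N ∧ ww p N i ≠ 0 := by
  obtain ⟨i, h1, h2, h3⟩ := two_exists_all p N hN hN2
  exact ⟨i, h1, mul_ne_zero h2 h3⟩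

lemma card_SS : (SS p N V).card = 3 * (KK p N V).card := by
  unfold SS
  rw [card_product, card_range]

theorem rank_one (hN : 2 * N + 3 ≤ p) (hN2 : 2 ≤ N) (hV : 2 * V < N) :
    1 + finrank (ZMod p) (WW p N V) ≤ 3 * (KK p N V).card := by
  rw [← card_SS]
  refine rank_nullity (SS p N V) (fam p N) 1
    (fun _ => ev p N (fun _ => 1) (fun _ => -1) (fun _ => -1)) (fun _ => ?_) (fun c hc => ?_)
  · exact ev_rel p N V hV _ _ _ (rel1 N hN2 hN)
  · obtain ⟨i, hi, hw⟩ := exists_ww p N hN hN2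
    have hiK : i ∈ KK p N V := (mem_KK hV).2 ⟨hi, Or.inr (Or.inr hw)⟩
    have h1 := hc (0, i) (by
      unfold SS
      rw [mem_product, mem_range]
      exact ⟨by norm_num, hiK⟩)
    intro j
    rw [Fin.sum_univ_one] at h1
    have hj : j = 0 := Subsingleton.elim _ _
    subst hj
    unfold ev at h1
    simp only [if_true, mul_one] at h1
    exact (mul_eq_zero.1 h1).resolve_right hw

theorem rank_three (hN : 2 * N + 3 ≤ p) (hN2 : 2 ≤ N) (hV : 2 * V < N)
    (h4 : (4 : ZMod p) ^ N ≠ 1) (h4' : (4 : ZMod p) ^ N ≠ 4) :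
    3 + finrank (ZMod p) (WW p N V) ≤ 3 * (KK p N V).card := by
  rw [← card_SS]
  refine rank_nullity_three (SS p N V) (fam p N)
    (ev p N (fun _ => 1) (fun _ => -1) (fun _ => -1))
    (ev p N (fun i => mu p i * mu p (N - i)) (fun i => - mu p (N - i)) (fun i => - mu p (N - i)))
    (ev p N (fun i => mu p (N - i)) (fun i => - (mu p i * mu p (N - i))) (fun i => - mu p i))
    (ev_rel p N V hV _ _ _ (rel1 N hN2 hN)) (ev_rel p N V hV _ _ _ (rel3 N hN2 hN))
    (ev_rel p N V hV _ _ _ (rel2 N hN2 hN)) (fun c0 c1 c2 hc => ?_)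
  · obtain ⟨i, hi, hw⟩ := exists_ww p N hN hN2
    have key : ∀ i, i ≤ N → ww p N i ≠ 0 →
        (c0 + c1 * (mu p i * mu p (N - i)) + c2 * mu p (N - i) = 0) ∧
        (c0 + c1 * mu p (N - i) + c2 * (mu p i * mu p (N - i)) = 0) ∧
        (c0 + c1 * mu p (N - i) + c2 * mu p i = 0) := by
      intro i hi hw
      have hiK : i ∈ KK p N V := (mem_KK hV).2 ⟨hi, Or.inr (Or.inr hw)⟩
      have hx : ∀ a < 3, (a, i) ∈ SS p N V := by
        intro a ha
        unfold SS
        rw [mem_product, mem_range]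
        exact ⟨ha, hiK⟩
      have k0 := hc (0, i) (hx 0 (by norm_num))
      have k1 := hc (1, i) (hx 1 (by norm_num))
      have k2 := hc (2, i) (hx 2 (by norm_num))
      change c0 * (ww p N i * 1) + c1 * (ww p N i * (mu p i * mu p (N - i))) +
        c2 * (ww p N i * mu p (N - i)) = 0 at k0
      change c0 * (ww p N i * -1) + c1 * (ww p N i * (- mu p (N - i))) +
        c2 * (ww p N i * (- (mu p i * mu p (N - i)))) = 0 at k1
      change c0 * (ww p N i * -1) + c1 * (ww p N i * (- mu p (N - i))) +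
        c2 * (ww p N i * (- mu p i)) = 0 at k2
      refine ⟨?_, ?_, ?_⟩
      · apply mul_left_cancel₀ hw
        linear_combination k0
      · apply mul_left_cancel₀ hw
        linear_combination -k1
      · apply mul_left_cancel₀ hw
        linear_combination -k2
    obtain ⟨a1, a2, a3⟩ := key i hi hw
    obtain ⟨b1, b2, b3⟩ := key (N - i) (by omega) (by rw [ww_symm p N i hi]; exact hw)
    rw [show N - (N - i) = i by omega] at b1 b2 b3
    set x := mu p i with hx
    set y := mu p (N - i) with hy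
    have hxy : (x + 1) * (y + 1) = (4 : ZMod p) ^ N := by
      rw [hx, hy]
      unfold mu
      rw [sub_add_cancel, sub_add_cancel, ← pow_add, Nat.add_sub_cancel' hi]
    have hbad : ¬ ((y = 0 ∨ x = 1) ∧ (x = 0 ∨ y = 1)) := by
      rintro ⟨h1 | h1, h2 | h2⟩
      · rw [h1, h2] at hxy
        apply h4
        rw [← hxy]; norm_num
      · rw [h1] at h2
        exact zero_ne_one h2
      · rw [h1] at h2
        exact one_ne_zero h2
      · rw [h1, h2] at hxy
        apply h4'
        rw [← hxy]; norm_num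
    have hc2 : c2 = 0 := by
      by_contra hne
      apply hbad
      constructor
      · have : c2 * (y * (x - 1)) = 0 := by linear_combination b2 - b3
        rcases mul_eq_zero.1 ((mul_eq_zero.1 this).resolve_left hne) with h | h
        · exact Or.inl h
        · exact Or.inr (sub_eq_zero.1 h)
      · have : c2 * (x * (y - 1)) = 0 := by linear_combination a2 - a3
        rcases mul_eq_zero.1 ((mul_eq_zero.1 this).resolve_left hne) with h | h
        · exact Or.inl h
        · exact Or.inr (sub_eq_zero.1 h)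
    rw [hc2] at a1 a2 a3 b1 b2 b3
    have hc1 : c1 = 0 := by
      by_contra hne
      apply hbad
      constructor
      · have : c1 * (y * (x - 1)) = 0 := by linear_combination a1 - a3
        rcases mul_eq_zero.1 ((mul_eq_zero.1 this).resolve_left hne) with h | h
        · exact Or.inl h
        · exact Or.inr (sub_eq_zero.1 h)
      · have : c1 * (x * (y - 1)) = 0 := by linear_combination b1 - b3
        rcases mul_eq_zero.1 ((mul_eq_zero.1 this).resolve_left hne) with h | h
        · exact Or.inl h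
        · exact Or.inr (sub_eq_zero.1 h)
    rw [hc1] at a1
    have hc0 : c0 = 0 := by linear_combination a1
    exact ⟨hc0, hc1, hc2⟩

/-- the bound for all `N` -/
theorem bound_all (hN : 2 * N + 3 ≤ p) (hN2 : 2 ≤ N) (hV : 2 * V < N) :
    2 * N ≤ 3 * ((JJ p N V).card + 1) * ((JJ p N V).card + 1 + 2 * V) := by
  have h1 := bound_of_rank p N V hN hV 1 (rank_one p N V hN hN2 hV)
  nlinarith

/-- the bound for all `N` outside two residue classes -/
theorem bound_gen (hN : 2 * N + 3 ≤ p) (hN2 : 2 ≤ N) (hV : 2 * V < N)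
    (h4 : (4 : ZMod p) ^ N ≠ 1) (h4' : (4 : ZMod p) ^ N ≠ 4) :
    2 * N ≤ ((JJ p N V).card + 1) ^ 2 + 2 * V * ((JJ p N V).card + 3) := by
  have h1 := bound_of_rank p N V hN hV 3 (rank_three p N V hN hN2 hV h4 h4')
  nlinarith

end Pool.Agent.H64.RP
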