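import Mathlib
import Pool.Agent.H64.RP.Main3

/-!
# The number of the regular indices up to `K`
-/

set_option autoImplicit false

namespace Pool.Agent.H64.RP

open Finset Pool.Agent.H332R2 Pool.Agent.TH350.SumReg
open Pool.Agent.Y374.RP (JJ mem_JJ)

section Comb

variable (P : ℕ → Prop) [DecidablePred P]

/-- the number of the representations of `N` -/
def rep (N : ℕ) : ℕ := ((Ioo 0 N).filter (fun i => P i ∧ P (N - i))).card

lemma sum_rep (K : ℕ) : ∑ N ∈ Icc 2 K, rep P N ≤ ((Icc 1 K).filter P).card ^ 2 := by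
  unfold rep
  rw [← card_sigma, sq, ← card_product]
  refine card_le_card_of_injOn (fun x : (Σ _ : ℕ, ℕ) => (x.2, x.1 - x.2)) ?_ ?_
  · rintro ⟨N, i⟩ hx
    rw [mem_coe, mem_sigma, mem_filter, mem_Icc, mem_Ioo] at hx
    rw [mem_coe, mem_product, mem_filter, mem_filter, mem_Icc, mem_Icc]
    simp only at hx ⊢
    exact ⟨⟨by omega, hx.2.2.1⟩, ⟨by omega, hx.2.2.2⟩⟩
  · rintro ⟨N, i⟩ hx ⟨M, j⟩ hy h
    rw [mem_coe, mem_sigma, mem_filter, mem_Icc, mem_Ioo] at hx hy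
    simp only [Prod.mk.injEq] at h hx hy
    have h1 : N = M := by omega
    subst h1
    obtain ⟨rfl, _⟩ := h
    rfl

end Comb

lemma sum_sqrt (K : ℕ) : 2 / 3 * ((K : ℝ) * √K) ≤ ∑ N ∈ Icc 1 K, √(N : ℝ) := by
  induction K with
  | zero => simp
  | succ K ih =>
    rw [Finset.sum_Icc_succ_top (by omega : 1 ≤ K + 1)]
    refine le_trans ?_ (add_le_add_left ih _)
    push_cast
    set x := √((K : ℝ) + 1) with hx
    set y := √(K : ℝ) with hy
    have hx2 : x * x = K + 1 := Real.mul_self_sqrt (by positivity)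
    have hy2 : y * y = K := Real.mul_self_sqrt (by positivity)
    have hx0 : 0 ≤ x := Real.sqrt_nonneg _
    have hy0 : 0 ≤ y := Real.sqrt_nonneg _
    have hyx : y ≤ x := Real.sqrt_le_sqrt (by linarith)
    have hx1 : 0 < x := Real.sqrt_pos.2 (by positivity)
    rw [← hx2, ← hy2]
    have h1 : (x - y) * (x + y) = 1 := by nlinarith
    have h3 : x * x * x - y * y * y ≤ 3 / 2 * x := by
      have h4 : (x * x * x - y * y * y) * (x + y) ≤ 3 / 2 * x * (x + y) := by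
        have h5 : (x * x * x - y * y * y) * (x + y) = (x * x + x * y + y * y) * ((x - y) * (x + y)) := by
          ring
        rw [h5, h1]
        nlinarith
      exact le_of_mul_le_mul_right h4 (by linarith)
    nlinarith

section Deg

variable (p : ℕ) [hp : Fact p.Prime]

/-- the exceptional `N` -/
def Dg (K : ℕ) : Finset ℕ := (Icc 2 K).filter fun N => (4 : ZMod p) ^ N = 1 ∨ (4 : ZMod p) ^ N = 4

lemma lt_orderOf (L : ℕ) (hL : 1 ≤ L) (hp3 : 5 ≤ p) (h : 4 ^ L ≤ p) : L ≤ orderOf (4 : ZMod p) := by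
  have h4 : (4 : ZMod p) ≠ 0 := by
    have h5 : ((4 : ℕ) : ZMod p) ≠ 0 := nat_ne_zero (p := p) (by norm_num) (by omega)
    exact_mod_cast h5
  have hfin : IsOfFinOrder (4 : ZMod p) := isOfFinOrder_iff_pow_eq_one.2
    ⟨p - 1, by omega, ZMod.pow_card_sub_one_eq_one h4⟩
  have h1 := pow_orderOf_eq_one (4 : ZMod p)
  have h0 := hfin.orderOf_pos
  set o := orderOf (4 : ZMod p)
  by_contra hlt
  push Not at hlt
  have h2 : ((4 ^ o - 1 : ℕ) : ZMod p) = 0 := by
    rw [Nat.cast_sub (Nat.one_le_pow _ _ (by norm_num))]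
    push_cast
    rw [h1, sub_self]
  rw [CharP.cast_eq_zero_iff (ZMod p) p] at h2
  have h3 := Nat.le_of_dvd (by
    have : 4 ^ 1 ≤ 4 ^ o := Nat.pow_le_pow_right (by norm_num) h0
    omega) h2
  have h5 : 4 ^ o ≤ 4 ^ L := Nat.pow_le_pow_right (by norm_num) hlt.le
  have h6 : 0 < 4 ^ o := by positivity
  omega

lemma card_Dg (K L : ℕ) (hL : 1 ≤ L) (hp3 : 5 ≤ p) (h : 4 ^ L ≤ p) :
    (Dg p K).card * L ≤ 2 * K := by
  have h4 : (4 : ZMod p) ≠ 0 := by
    have h5 : ((4 : ℕ) : ZMod p) ≠ 0 := nat_ne_zero (p := p) (by norm_num) (by omega)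
    exact_mod_cast h5
  have hlo := lt_orderOf p L hL hp3 h
  set o := orderOf (4 : ZMod p) with ho
  have h1 : (Dg p K) ⊆ ((Ioc 0 K).filter (fun x => o ∣ x)) ∪
      ((Ioc 0 K).filter (fun x => o ∣ x)).image (fun x => x + 1) := by
    intro N hN
    unfold Dg at hN
    rw [mem_filter, mem_Icc] at hN
    rw [mem_union]
    rcases hN.2 with h2 | h2
    · left
      rw [mem_filter, mem_Ioc]
      exact ⟨by omega, orderOf_dvd_of_pow_eq_one h2⟩
    · right
      rw [mem_image]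
      refine ⟨N - 1, ?_, by omega⟩
      rw [mem_filter, mem_Ioc]
      refine ⟨by omega, orderOf_dvd_of_pow_eq_one ?_⟩
      obtain ⟨m, rfl⟩ : ∃ m, N = m + 1 := ⟨N - 1, by omega⟩
      rw [Nat.add_sub_cancel]
      rw [pow_succ] at h2
      exact mul_right_cancel₀ h4 (by rw [h2, one_mul])
  have h2 := card_le_card h1
  have h3 := card_union_le ((Ioc 0 K).filter (fun x => o ∣ x))
    (((Ioc 0 K).filter (fun x => o ∣ x)).image (fun x => x + 1))
  have h5 := card_image_le (s := (Ioc 0 K).filter (fun x => o ∣ x)) (f := fun x => x + 1)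
  have h6 : ((Ioc 0 K).filter (fun x => o ∣ x)).card = K / o := Nat.Ioc_filter_dvd_card_eq_div K o
  have h7 : (Dg p K).card ≤ 2 * (K / o) := by omega
  have h8 : K / o ≤ K / L := Nat.div_le_div_left hlo (by omega)
  have h9 : K / L * L ≤ K := Nat.div_mul_le_self K L
  nlinarith

/-- the regular indices -/
def Rg (i : ℕ) : Prop := ¬ ((p : ℤ) ∣ (bernoulli (2 * i)).num)

instance : DecidablePred (Rg p) := fun i => by unfold Rg; infer_instance

lemma rep_eq (N : ℕ) (hN : 2 * N + 3 ≤ p) : rep (Rg p) N = (JJ p N 0).card := by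
  unfold rep JJ
  rw [Nat.sub_zero]
  congr 1
  refine filter_congr fun i hi => ?_
  rw [mem_Ioo] at hi
  unfold Rg ww
  rw [mul_ne_zero_iff, Ne, Ne, cc_eq_zero_iff (p := p) (k := 2 * i) (by omega) (by omega),
    cc_eq_zero_iff (p := p) (k := 2 * (N - i)) (by omega) (by omega)]

/-- the bound for one `N` -/
lemma rep_ge (N : ℕ) (hN : 2 * N + 3 ≤ p) (hN2 : 2 ≤ N) :
    √(2 * N : ℝ) - (if N ∈ Dg p N then √(2 * N : ℝ) / 2 else 0) ≤ rep (Rg p) N + 1 := by
  rw [rep_eq p N hN]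
  have h0 : (0 : ℝ) ≤ (JJ p N 0).card := by positivity
  split_ifs with h
  · have h1 := bound_all p N 0 hN hN2 (by omega)
    have h2 : √(2 * N : ℝ) ≤ 2 * ((JJ p N 0).card + 1) := by
      rw [Real.sqrt_le_left (by positivity)]
      have h3 : ((2 * N : ℕ) : ℝ) ≤ ((3 * ((JJ p N 0).card + 1) * ((JJ p N 0).card + 1 + 2 * 0) : ℕ) : ℝ) := by
        exact_mod_cast h1
      push_cast at h3
      nlinarith
    linarith
  · have h4 : (4 : ZMod p) ^ N ≠ 1 ∧ (4 : ZMod p) ^ N ≠ 4 := by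
      constructor
      · intro h5
        exact h (mem_filter.2 ⟨mem_Icc.2 ⟨hN2, le_rfl⟩, Or.inl h5⟩)
      · intro h5
        exact h (mem_filter.2 ⟨mem_Icc.2 ⟨hN2, le_rfl⟩, Or.inr h5⟩)
    have h1 := bound_gen p N 0 hN hN2 (by omega) h4.1 h4.2
    rw [sub_zero, Real.sqrt_le_left (by positivity)]
    have h3 : ((2 * N : ℕ) : ℝ) ≤ ((((JJ p N 0).card + 1) ^ 2 + 2 * 0 * ((JJ p N 0).card + 3) : ℕ) : ℝ) := by
      exact_mod_cast h1
    push_cast at h3
    nlinarith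

/-- the explicit bound -/
theorem count_explicit (K L : ℕ) (hK : 2 ≤ K) (hKp : 2 * K + 3 ≤ p) (hL : 1 ≤ L) (h : 4 ^ L ≤ p) :
    2 / 3 * √2 * (K * √(K : ℝ)) ≤
      (((Icc 1 K).filter (Rg p)).card : ℝ) ^ 2 + K + 1 + K / L * (√2 * √(K : ℝ)) := by
  have h1 : ∑ N ∈ Icc 2 K, (√(2 * N : ℝ) - (if N ∈ Dg p N then √(2 * N : ℝ) / 2 else 0)) ≤
      ∑ N ∈ Icc 2 K, ((rep (Rg p) N : ℝ) + 1) := by
    refine sum_le_sum fun N hN => ?_
    rw [mem_Icc] at hN
    exact rep_ge p N (by omega) (by omega)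
  have h2 : ∑ N ∈ Icc 2 K, (if N ∈ Dg p N then √(2 * N : ℝ) / 2 else 0) ≤
      (Dg p K).card * (√2 * √(K : ℝ) / 2) := by
    calc ∑ N ∈ Icc 2 K, (if N ∈ Dg p N then √(2 * N : ℝ) / 2 else 0)
        ≤ ∑ N ∈ Icc 2 K, (if N ∈ Dg p K then √2 * √(K : ℝ) / 2 else 0) := by
          refine sum_le_sum fun N hN => ?_
          rw [mem_Icc] at hN
          have h3 : N ∈ Dg p N ↔ N ∈ Dg p K := by
            unfold Dg
            rw [mem_filter, mem_filter, mem_Icc, mem_Icc]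
            constructor
            · rintro ⟨_, h⟩; exact ⟨⟨hN.1, hN.2⟩, h⟩
            · rintro ⟨_, h⟩; exact ⟨⟨hN.1, le_rfl⟩, h⟩
          by_cases h4 : N ∈ Dg p K
          · rw [if_pos (h3.2 h4), if_pos h4, Real.sqrt_mul (by norm_num)]
            have h5 : √(N : ℝ) ≤ √(K : ℝ) := Real.sqrt_le_sqrt (by exact_mod_cast hN.2)
            have h6 : (0 : ℝ) ≤ √2 := Real.sqrt_nonneg _
            nlinarith
          · rw [if_neg (fun h => h4 (h3.1 h)), if_neg h4]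
      _ = _ := by
          rw [← sum_filter, sum_const, nsmul_eq_mul]
          congr 3
          ext N
          unfold Dg
          simp only [mem_filter, mem_Icc]
          tauto
  have h3 : ∑ N ∈ Icc 2 K, √(2 * N : ℝ) = √2 * ∑ N ∈ Icc 1 K, √(N : ℝ) - √2 := by
    have h4 : Icc 1 K = insert 1 (Icc 2 K) := by
      ext N
      rw [mem_insert, mem_Icc, mem_Icc]
      omega
    rw [h4, sum_insert (by simp), mul_add, Nat.cast_one, Real.sqrt_one, mul_one, add_sub_cancel_left,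
      Finset.mul_sum]
    exact sum_congr rfl fun N _ => Real.sqrt_mul (by norm_num) _
  have h4 := sum_sqrt K
  have h5 : (∑ N ∈ Icc 2 K, (rep (Rg p) N : ℝ)) ≤ (((Icc 1 K).filter (Rg p)).card : ℝ) ^ 2 := by
    exact_mod_cast sum_rep (Rg p) K
  have h6 : ∑ N ∈ Icc 2 K, (1 : ℝ) = K - 1 := by
    rw [sum_const, nsmul_eq_mul, mul_one, Nat.card_Icc]
    have : K + 1 - 2 = K - 1 := by omega
    rw [this, Nat.cast_sub (by omega), Nat.cast_one]
  have h7 : ((Dg p K).card : ℝ) ≤ 2 * (K / L) := by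
    have h8 : (((Dg p K).card * L : ℕ) : ℝ) ≤ ((2 * K : ℕ) : ℝ) := by
      exact_mod_cast card_Dg p K L hL (by omega) h
    push_cast at h8
    have h9 : (0 : ℝ) < L := by exact_mod_cast hL
    rw [← mul_div_assoc, le_div_iff₀ h9]
    exact h8
  rw [sum_sub_distrib, sum_add_distrib, h3, h6] at h1
  have h8 : (0 : ℝ) ≤ √2 * √(K : ℝ) / 2 := by positivity
  have h9 : ((Dg p K).card : ℝ) * (√2 * √(K : ℝ) / 2) ≤ 2 * (K / L) * (√2 * √(K : ℝ) / 2) :=
    mul_le_mul_of_nonneg_right h7 h8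
  have h10 : √2 ≤ 2 := by
    rw [Real.sqrt_le_left (by norm_num)]; norm_num
  have h11 : (0 : ℝ) ≤ √2 := Real.sqrt_nonneg _
  have h12 : √2 * (2 / 3 * ((K : ℝ) * √K)) ≤ √2 * ∑ N ∈ Icc 1 K, √(N : ℝ) :=
    mul_le_mul_of_nonneg_left h4 h11
  have h13 : 2 * ((K : ℝ) / L) * (√2 * √(K : ℝ) / 2) = K / L * (√2 * √(K : ℝ)) := by ring
  rw [h13] at h9
  nlinarith

end Deg

end Pool.Agent.H64.RP
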